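import Pool.Agent.P.MP_f8f34d_lc.C.Mea
import Pool.Agent.P.MP_f8f34d_lc.N.Ill
import Pool.Agent.P.MP_f8f34d_lc.N.Chain
import Pool.Agent.P.MP_f8f34d_lc.N.Tower

/-! Uniform versions of the tools of sections 2, 3 and 6. -/

namespace Pool.Agent.MinDeg

open FirstOrder FirstOrder.Language Pool.Agent.Lib.ComputableProp Filter

theorem tg_gn (M : Type) [LA.Structure M] (σ : LA.Sentence) :
    tg (completeTheory LA M) (gn σ) = true ↔ M ⊨ σ := by
  simp only [tg, decide_eq_true_eq]
  refine ⟨?_, fun h => ⟨σ, h, rfl⟩⟩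
  rintro ⟨σ', h1, h2⟩
  rw [← enc_T1, ← enc_T1] at h2
  rw [← sat_T1_sentence, ← enc_inj h2, sat_T1_sentence]
  exact h1

theorem exists_sn : ∃ sn : ℕ → ℕ → ℕ, ∀ T : LA.Theory, T.IsMaximal → PA ⊆ T →
    ∀ (N : Type) [LA.Structure N], N ⊨ T → ∀ k, (fun j => tg T (sn k j)) = TK (PreLA N) k := by
  have H : ∀ k j : ℕ, ∃ n, ∀ (N : Type) [LA.Structure N], Pa.PM N →
      tg (completeTheory LA N) n = TK (PreLA N) k j := fun k j => by
    obtain ⟨φ, hφ⟩ := tower_df_TK k
    obtain ⟨ψ, hψ⟩ := n_inst φ j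
    refine ⟨gn (T2 ψ 0), fun N _ hN => ?_⟩
    rw [Bool.eq_iff_iff, tg_gn, sat_T2_sentence, hψ, ← hφ N hN]
    simp [df]
  choose sn h using H
  refine ⟨sn, fun T hT hP N _ hN k => funext fun j => ?_⟩
  rw [← h k j N (Pa.pm_of_model (hN.mono hP)), ← Pa.eq_completeTheory hT hN]

theorem exists_chain2 : ∃ (C : Chain) (act : (ℕ → ℕ) → XX → (ℕ → CS) → XX),
    (Continuous fun p : (ℕ → ℕ) × XX × (ℕ → CS) => act p.1 p.2.1 p.2.2) ∧
    (∀ a Y t, act a (act a Y t) t = Y) ∧
    (∀ (r : CS) (a : ℕ → ℕ), (∀ d, r (Nat.pair (a (d + 1)) (a d)) = true) →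
      ∀ Y t, C.c3 r (act a Y t) = C.c3 r Y) ∧
    (∀ a Y t t' n, t n = t' n → C.lv (act a Y t) n = C.lv (act a Y t') n) ∧
    ∀ a Y t n, rt (C.lv (act a Y t) n) = xr (rt (C.lv Y n)) (t n) := by
  have lc : ∀ d, IsLocallyConstant fun p : (ℕ → ℕ) × CS => chain_path p.1 p.2 d := fun d => by
    have h : ∀ k, IsLocallyConstant fun p : (ℕ → ℕ) × CS => (p.1 k, p.2 k) := fun k =>
      (IsLocallyConstant.iff_continuous _).2 (by fun_prop)
    induction d with
    | zero => exact (h 0).comp fun b => [b]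
    | succ d ih => exact (h (d + 1)).comp₂ ih fun b l => b :: l
  have hc : Continuous fun p : (ℕ → ℕ) × XX × (ℕ → CS) => chain_act p.1 p.2.1 p.2.2 :=
    continuous_pi fun n => continuous_pi fun d =>
      (((IsLocallyConstant.iff_continuous fun p : (ℕ → ℕ) × XX × (ℕ → CS) => p.2.1 n d).2
        (by fun_prop)).comp₂ ((lc d).comp_continuous
          (f := fun p : (ℕ → ℕ) × XX × (ℕ → CS) => (p.1, p.2.2 n)) (by fun_prop))
        fun v u => chain_dec.symm (chain_dec v + Finsupp.single u 1)).continuous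
  have hi : ∀ a Y t, chain_act a (chain_act a Y t) t = Y := fun a Y t => by
    funext n d
    simp only [chain_act, Equiv.apply_symm_apply, add_assoc, chain_self, add_zero,
      Equiv.symm_apply_apply]
  have h3 : ∀ (r : CS) (a : ℕ → ℕ), (∀ d, r (Nat.pair (a (d + 1)) (a d)) = true) →
      ∀ Y t, chain_c3 r (chain_act a Y t) = chain_c3 r Y := fun r a ha Y t => by
    have : ∀ n d, chain_c r (chain_act a Y t n) d = chain_c r (Y n) d := fun n d => by
      simp only [chain_c, chain_act, Equiv.apply_symm_apply, map_add, chain_pi_path ha]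
      rw [add_add_add_comm, chain_self, add_zero]
    funext i
    simp only [chain_c3, this]
  have h4 : ∀ a Y t t' n, t n = t' n →
      chain_lv (chain_act a Y t n) = chain_lv (chain_act a Y t' n) := fun a Y t t' n h => by
    have : chain_act a Y t n = chain_act a Y t' n := by
      funext d
      simp only [chain_act, h]
    simp only [this]
  have h5 : ∀ a Y t n, rt (chain_lv (chain_act a Y t n)) = xr (rt (chain_lv (Y n))) (t n) :=
    fun a Y t n => by
      funext d
      simp only [chain_lv, rt_jn, xr, chain_act, Equiv.apply_symm_apply, chain_chi_add,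
        chain_path_head]
  refine ⟨⟨chain_Rl, chain_c3, fun Y n => chain_lv (Y n), chain_Sol, chain_meas_c3, chain_meas_lv,
    chain_de, fun r Y B0 hr h1 h2 h3 => chain_sol hr h1 h2 h3, fun r hr => ?_⟩, chain_act, hc, hi,
    h3, h4, h5⟩
  obtain ⟨a, ha⟩ : ∃ a : ℕ → ℕ, ∀ d, r (Nat.pair (a (d + 1)) (a d)) = true := by
    by_contra h
    exact hr (wellFounded_iff_isEmpty_descending_chain.2 ⟨fun f => h ⟨f.1, f.2⟩⟩)
  have c1 : ∀ t, Continuous fun Y => chain_act a Y t := fun t =>
    hc.comp (f := fun Y : XX => (a, Y, t)) (by fun_prop)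
  exact ⟨chain_act a, c1, fun t => IsOpenMap.of_inverse (c1 t) (fun Y => hi a Y t) fun Y => hi a Y t,
    fun Y => hc.comp (f := fun t : ℕ → CS => (a, Y, t)) (by fun_prop), h3 r a ha, h4 a, h5 a⟩

open Classical in
/-- the value of functional `e`, if total -/
noncomputable def Psi (e : ℕ) (z : CS) : CS := fun n => decide (Tot e z ∧ Ps e z n true)

open Classical in
theorem psi_ag {e : ℕ} {z : CS} (h : Tot e z) : Ag e z (Psi e z) := fun n b hb => by
  cases b
  · exact decide_eq_false fun k => Bool.false_ne_true (hb.unique k.2)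
  · exact decide_eq_true ⟨h, hb⟩

open Classical in
theorem psi_le (e : ℕ) (z : CS) : LeT (Psi e z) z := by
  by_cases h : Tot e z
  · exact h.leT (psi_ag h)
  · have : Psi e z = zz := funext fun n => decide_eq_false fun k => h k.1
    rw [this]
    exact (CM.zz (α := Unit)).leT z ()

theorem psi_of_le {A z : CS} (h : LeT A z) : ∃ e, Psi e z = A := by
  obtain ⟨e, h1, h2⟩ := h.exists_fun
  exact ⟨e, h1.ag_unique (psi_ag h1) h2⟩

theorem meas_ps (e n : ℕ) (b : Bool) : Measurable fun z => Ps e z n b :=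
  (sig_Ps (α := Unit) CM.id (Computable.const e) (Computable.const n) (Computable.const b)).meas ()

theorem meas_decide {α : Type} [MeasurableSpace α] {P : α → Prop} [DecidablePred P]
    (h : Measurable P) : Measurable fun a => decide (P a) :=
  measurable_to_bool (by simpa [Set.preimage] using measurableSet_setOfPred.2 h)

open Classical in
theorem meas_psi (e : ℕ) : Measurable (Psi e) := measurable_pi_lambda _ fun n =>
  meas_decide ((Measurable.forall fun m => Measurable.exists fun b => meas_ps e m b).and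
    (meas_ps e n true))

/-- an enumeration of the sets computable in some `Z n` -/
noncomputable def En (Z : ℕ → CS) : ℕ → CS := fun k => Psi k.unpair.1 (Z k.unpair.2)

theorem mem_En {Z : ℕ → CS} {A : CS} : A ∈ Set.range (En Z) ↔ ∃ n, LeT A (Z n) := by
  constructor
  · rintro ⟨k, rfl⟩
    exact ⟨_, psi_le _ _⟩
  · rintro ⟨n, h⟩
    obtain ⟨e, he⟩ := psi_of_le h
    exact ⟨Nat.pair e n, by simpa [En] using he⟩

theorem idl_En {Z : ℕ → CS} (h : ∀ m n, m ≤ n → LeT (Z m) (Z n)) : Idl (Set.range (En Z)) := by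
  refine ⟨mem_En.2 ⟨0, (CM.zz (α := Unit)).leT _ ()⟩, fun A hA B hB => ?_, fun ζ A hA => ?_⟩
  · obtain ⟨m, hm⟩ := mem_En.1 hA
    obtain ⟨n, hn⟩ := mem_En.1 hB
    refine mem_En.2 ⟨max m n, LeT.trans ?_ ((hm.trans (h _ _ (le_max_left _ _))).jn
      (hn.trans (h _ _ (le_max_right _ _))))⟩
    simpa using ((CM.id (α := Unit)).lf.rs CM.id.rt).leT (jn A B) ()
  · obtain ⟨m, hm⟩ := mem_En.1 hA
    exact mem_En.2 ⟨m, (((CM.id (α := List Bool)).cat Computable.id).leT A ζ).trans hm⟩

theorem meas_En : Measurable En :=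
  measurable_pi_lambda _ fun _ => (meas_psi _).comp (measurable_pi_apply _)

/-- the join of the `Q m j` with `m ≤ n` -/
def Zn (Q : ℕ → ℕ → CS) (n : ℕ) : CS := fun p =>
  cond (leb p.unpair.1.unpair.1 n) (Q p.unpair.1.unpair.1 p.unpair.1.unpair.2 p.unpair.2) false

theorem zn_mono (Q : ℕ → ℕ → CS) (m n : ℕ) (h : m ≤ n) : LeT (Zn Q m) (Zn Q n) := by
  have := (CM.cond (CM.id (α := Unit)) CM.zz (c := fun _ p => leb p.unpair.1.unpair.1 m)
    (by fun_prop)).leT (Zn Q n) ()
  refine (congrArg (LeT · (Zn Q n)) (funext fun p => ?_)).mpr this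
  by_cases k : p.unpair.1.unpair.1 ≤ m
  · simp [Zn, leb, k, k.trans h]
  · simp [Zn, leb, k, zz]

theorem zn_col (Q : ℕ → ℕ → CS) (m j : ℕ) : LeT (Q m j) (Zn Q m) := by
  have := ((CM.id (α := ℕ)).col Computable.id).leT (Zn Q m) (Nat.pair m j)
  refine (congrArg (LeT · (Zn Q m)) (funext fun p => ?_)).mpr this
  simp [Zn, col, leb]

theorem zn_congr {Q Q' : ℕ → ℕ → CS} {n : ℕ} (h : ∀ m ≤ n, ∀ j, Q m j = Q' m j) :
    Zn Q n = Zn Q' n := funext fun p => by
  by_cases k : p.unpair.1.unpair.1 ≤ n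
  · rw [Zn, Zn, h _ k]
  · simp [Zn, leb, k]

theorem meas_Zn {α : Type} [MeasurableSpace α] {Q : α → ℕ → ℕ → CS}
    (h : ∀ m j, Measurable fun a => Q a m j) : Measurable fun a => Zn (Q a) :=
  measurable_pi_lambda _ fun n => measurable_pi_lambda _ fun p => by
    unfold Zn
    cases leb p.unpair.1.unpair.1 n
    exacts [measurable_const, (measurable_pi_apply _).comp (h _ _)]

theorem ku2 {A B : Type} [TopologicalSpace A] [TopologicalSpace B] [SecondCountableTopology B]
    {GG : Set (A × B)} (hG : GG ∈ residual (A × B)) :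
    {a | {b | (a, b) ∈ GG} ∈ residual B} ∈ residual A := by
  obtain ⟨D, ho, hd, hD⟩ := top_seq hG
  have key : ∀ k, {a | Dense {b | (a, b) ∈ D k}} ∈ residual A := fun k => by
    refine top_ku (fun a b => (a, b)) (fun b => by fun_prop) (ho k) fun U V hU hV h1 h2 => ?_
    obtain ⟨⟨a, b⟩, k1, k2⟩ := (hd k).inter_open_nonempty _ (hU.prod hV) (h1.prod h2)
    exact ⟨a, k1.1, b, k1.2, k2⟩
  refine mem_of_superset (countable_iInter_mem.2 key) fun a ha => ?_
  refine mem_of_superset (countable_iInter_mem.2 fun k => residual_of_dense_open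
    ((ho k).preimage (f := fun b => (a, b)) (by fun_prop)) (Set.mem_iInter.1 ha k)) fun b hb => ?_
  exact hD _ fun k => Set.mem_iInter.1 hb k

theorem res_countable {E : Set CS} (h : E.Countable) : Eᶜ ∈ residual CS := by
  have : ∀ g ∈ E, ({g}ᶜ : Set CS) ∈ residual CS := fun g _ => by
    refine residual_of_dense_open isOpen_compl_singleton (dense_iff_inter_open.2 ?_)
    rintro U hU ⟨z, hz⟩
    obtain ⟨n, hn⟩ := exists_pre_of_isOpen hU hz
    refine ⟨Function.update z n (!g n), hn n le_rfl _ (ext_pre_iff.2 fun k hk => ?_), fun e => ?_⟩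
    · rw [Function.update_of_ne (by omega)]
    · simpa using congrFun e n
  exact mem_of_superset ((countable_bInter_mem h).2 this) fun f hf k =>
    Set.mem_iInter₂.1 hf f k rfl

end Pool.Agent.MinDeg
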