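import Pool.Agent.P.MP_f8f34d_lc.C.Good
import Pool.Agent.P.MP_f8f34d_lc.N.Bor
import Pool.Agent.P.MP_f8f34d_lc.W.FinB

/-! The set of completions with a minimal degree is complete analytic. -/

namespace Pool.Agent.MinDeg

open FirstOrder FirstOrder.Language Filter MeasureTheory

/-- trees for an analytic set -/
theorem exists_rel {A : Set CS} (hA : AnalyticSet A) :
    ∃ rel : CS → List ℕ × ℕ → List ℕ × ℕ → Prop, (∀ a b, IsLocallyConstant fun x => rel x a b) ∧
      (∀ x a b c, rel x a b → rel x b c → rel x a c) ∧ (∀ x ∈ A, ¬ Acc (rel x) ([], 0)) ∧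
      ∀ x ∉ A, WellFounded (rel x) := by
  rw [AnalyticSet] at hA
  rcases hA with rfl | ⟨F, hF, rfl⟩
  · exact ⟨fun _ _ _ => False, fun _ _ => IsLocallyConstant.const _, fun _ _ _ _ h _ => h,
      fun _ h => h.elim, fun _ _ => ⟨fun a => ⟨a, fun _ h => h.elim⟩⟩⟩
  let f : CS → (ℕ → ℕ) → CS := fun x z p =>
    decide (p.unpair.2 < p.unpair.1 ∧ ∀ i ≤ p.unpair.1, F z i = x i)
  have hf : ∀ x z a b, f x z (Nat.pair a b) = true ↔ b < a ∧ ∀ i ≤ a, F z i = x i :=
    fun x z a b => by simp only [f, Nat.unpair_pair, decide_eq_true_eq]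
  have ev : ∀ (x : CS) (a : ℕ), ∀ᶠ y in nhds x, ∀ i ≤ a, y i = x i := fun x a => by
    filter_upwards [((Finset.range (a + 1)).eventually_all).2 fun i _ =>
      (IsLocallyConstant.iff_eventually_eq _).1
        ((IsLocallyConstant.iff_continuous _).2 (continuous_apply (A := fun _ : ℕ => Bool) i)) x]
      with y hy i hi
    exact hy i (Finset.mem_range.2 (Nat.lt_succ_of_le hi))
  refine ⟨fun x => borLt (f x), fun a b => (IsLocallyConstant.iff_eventually_eq _).2 fun x => ?_,
    fun x a b c h k => ⟨k.1.trans h.1, fun i hi => (h.2.1 i (hi.trans k.1)).trans (k.2.1 i hi),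
      fun z hz => ?_⟩, ?_, fun x hx => bor_wf fun z => ?_⟩
  · filter_upwards [ev x a.2] with y hy
    refine propext (and_congr_right fun _ => and_congr_right fun _ => forall₂_congr fun z _ => ?_)
    rw [hf, hf]
    exact and_congr_right fun _ => forall₂_congr fun i hi => by rw [hy i hi]
  · have h1 := (hf _ _ _ _).1 (h.2.2 z hz)
    have h2 := (hf _ _ _ _).1 (k.2.2 z fun i hi => (hz i (hi.trans h.1)).trans (h.2.1 i hi))
    exact (hf _ _ _ _).2 ⟨h2.1.trans h1.1, h1.2⟩
  · rintro _ ⟨z, rfl⟩ h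
    have hc : Continuous (f (F z)) := continuous_pi fun p => IsLocallyConstant.continuous
      ((IsLocallyConstant.iff_eventually_eq _).2 fun w => by
        filter_upwards [hF.continuousAt.eventually (ev (F w) p.unpair.1)] with y hy
        exact decide_eq_decide.2 (and_congr_right fun _ => forall₂_congr fun i hi => by rw [hy i hi]))
    have key : ∀ u, Acc (borLt (f (F z))) u → ∀ k, u.1 ≠ (List.range k).map z := fun u hu => by
      induction hu with
      | intro u _ ih =>
        intro k e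
        obtain ⟨k', hk⟩ := bor_step hc z k ((hf (F z) z (u.2 + 1) u.2).2
          ⟨Nat.lt_succ_self _, fun _ _ => rfl⟩)
        rw [← e] at hk
        exact ih _ hk k' rfl
    exact key _ h 0 rfl
  · obtain ⟨i, hi⟩ : ∃ i, F z i ≠ x i := by
      by_contra hc
      exact hx ⟨z, funext fun i => by_contra fun k => hc ⟨i, k⟩⟩
    refine Subrelation.wf (fun {a b} h => ?_) (InvImage.wf (fun a => i - a) (wellFounded_lt (α := ℕ)))
    obtain ⟨h1, h2⟩ := (hf _ _ _ _).1 h
    have : a < i := not_le.1 fun k => hi (h2 i k)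
    show i - a < i - b
    omega

theorem c_hard (sol : SolovayStmt) {A : Set CS} (hA : AnalyticSet A) :
    ∃ f : CS → CS, Continuous f ∧ ∀ x, ∃ T : LA.Theory, T.IsMaximal ∧ PA ⊆ T ∧ T ≠ TA ∧
      f x = tg T ∧ (x ∈ A ↔ Yes T) := by
  obtain ⟨rel, h1, h2, h3, h4⟩ := exists_rel hA
  obtain ⟨C, W, G, g1, g2, g3⟩ := exists_good sol
  have ok : ∀ r Y, col (mkB C W r Y 0) 1 = W.H := fun r Y => mk0_1 _ _ _ _
  have hd : Measurable dY :=
    measurable_pi_lambda _ fun n => measurable_pi_lambda _ fun d => measurable_pi_apply _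
  obtain ⟨f, g, k1, k2, k3⟩ := steel rel h1 h2 ([], 0) g1 g2
    (Φ := fun r y => tg (W.th (mkB C W r (dY y))))
    (W.meas _ (fun p : CS × (ℕ → ℕ) => mkB C W p.1 (dY p.2))
      (meas_two (F := mkB C W) (meas_mkB C W) measurable_fst (hd.comp measurable_snd))
      fun p => ok _ _)
  refine ⟨_, k1, fun x => ⟨_, (W.max _ (ok _ _)).1, (W.max _ (ok _ _)).2, W.ne _ (ok _ _) rfl, rfl,
    fun hx => ?_, fun hy => by_contra fun hx => no_wf sol C W (k2 x (h4 x hx)) _ hy⟩⟩
  obtain ⟨a, z, m1, m2⟩ := k3 x (h3 x hx)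
  have := g3 _ m2
  rwa [funext m1] at this

/-- the structure read off a diagram -/
@[instance_reducible] noncomputable def Sd (y : CS) : LA.Structure ℕ where
  funMap f v := sInf {k | y (2 * Nat.pair (code (Term.func f fun i => Term.var (v i)))
    (code (Term.var k))) = true}
  RelMap {n} (r : Rl n) v := match r with
    | .lt => y (2 * Nat.pair (code (Term.var (v 0))) (code (Term.var (v 1))) + 1) = true

theorem Sd_dg (B : LA.Structure ℕ) : Sd (dg B) = B := by
  refine Structure.ext (funext fun n => funext fun f => funext fun v => ?_)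
    (funext fun n => funext fun r => funext fun v => ?_)
  · show sInf {k | dg B _ = true} = _
    simp only [dg, decide_eq_true_eq, mem_diagram_eq]
    exact (congrArg sInf (Set.ofPred_eq_eq_singleton' (a := B.funMap f v))).trans (csInf_singleton _)
  · cases r
    show (dg B _ = true) = _
    simp only [dg, decide_eq_true_eq, mem_diagram_lt]
    show B.RelMap Rl.lt ![v 0, v 1] = B.RelMap Rl.lt v
    congr 1
    funext i
    fin_cases i <;> rfl

theorem meas_dep {α β γ : Type} [MeasurableSpace α] [MeasurableSpace β] [Countable β]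
    [MeasurableSingletonClass β] [MeasurableSpace γ] {g : α → β} (hg : Measurable g)
    {F : α → β → γ} (hF : ∀ b, Measurable fun a => F a b) : Measurable fun a => F a (g a) :=
  meas_two (F := F) (measurable_from_prod_countable_left hF) measurable_id hg

theorem meas_real (t : LA.Term ℕ) : Measurable fun y => @Term.realize LA ℕ (Sd y) ℕ id t := by
  induction t with
  | var k => exact measurable_const
  | func f ts ih =>
    exact meas_dep (measurable_pi_lambda _ ih) (F := fun y v => (Sd y).funMap f v) fun v =>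
      meas_sInf fun k => measurable_bit measurable_id _

open Classical in
theorem meas_dg : Measurable fun y => dg (Sd y) := measurable_pi_lambda _ fun n => by
  have : Countable (LA.Term ℕ) := code_inj.countable
  refine meas_decide (Measurable.exists fun s => Measurable.exists fun t =>
    (measurable_const.and ?_).or (measurable_const.and ?_))
  · simp only [Formula.realize_equal]
    exact measurableSet_setOfPred.1 (measurableSet_eq_fun (meas_real s) (meas_real t))
  · simp only [realize_ltF]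
    exact meas_dep ((meas_real s).prodMk (meas_real t))
      (F := fun y (v : ℕ × ℕ) => @lM ℕ (Sd y) v.1 v.2) fun v => measurable_bit measurable_id _

/-- the theory of that structure -/
def thd (y : CS) : LA.Theory := @completeTheory LA ℕ (Sd y)

theorem meas_thd (σ : LA.Sentence) : Measurable fun y => σ ∈ thd y := by
  have e : ∀ y, σ ∈ thd y ↔ Tr (dg (Sd y)) (T1 Empty.elim 0 σ) [] := fun y => by
    rw [tr_dg, @sat_T1_sentence ℕ (Sd y)]
    rfl
  simp only [e]
  exact (measurable_tr _ _).comp meas_dg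

theorem c_an : AnalyticSet {χ : CS | ∃ T : LA.Theory, T.IsMaximal ∧ PA ⊆ T ∧ T ≠ TA ∧
    χ = tg T ∧ Yes T} := by
  classical
  have := countable_symbols
  have : Countable LA.Sentence := inferInstanceAs (Countable (LA.Formula Empty))
  have : PolishSpace CS := {}
  have e : {χ : CS | ∃ T : LA.Theory, T.IsMaximal ∧ PA ⊆ T ∧ T ≠ TA ∧ χ = tg T ∧ Yes T} =
      {χ | ∃ y, χ = tg (thd y) ∧ dg (Sd y) = y ∧ (∀ σ ∈ PA, σ ∈ thd y) ∧
        (¬ ∀ σ, σ ∈ thd y ↔ σ ∈ TA) ∧ ∀ e, dg (Sd (Psi e y)) = Psi e y →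
          (∀ σ, σ ∈ thd (Psi e y) ↔ σ ∈ thd y) → ∃ e', Psi e' (Psi e y) = y} := by
    ext χ
    constructor
    · rintro ⟨T, h1, h2, h3, rfl, _, ⟨M, hM, rfl⟩, h4⟩
      have e : thd (dg M) = T := by
        rw [thd, Sd_dg]
        exact (@Pa.eq_completeTheory T ℕ M h1 hM).symm
      refine ⟨dg M, by rw [e], by rw [Sd_dg], e ▸ h2, fun k => h3 (e ▸ Set.ext k), fun i k1 k2 => ?_⟩
      refine psi_of_le (LeT.of_turing (by_contra fun k => h4 _ ⟨Sd (Psi i (dg M)), ?_, rfl⟩ ?_))
      · rw [← e, ← Set.ext k2]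
        exact @model_completeTheory LA ℕ (Sd _)
      · rw [deg_eq, deg_eq, k1]
        exact lt_of_le_not_ge (psi_le i (dg M)).turing k
    · rintro ⟨y, rfl, h1, h2, h3, h4⟩
      refine ⟨thd y, @completeTheory.isMaximal LA ℕ (Sd y) _, h2, fun k => h3 (Set.ext_iff.1 k), rfl,
        _, ⟨Sd y, @model_completeTheory LA ℕ (Sd y), rfl⟩, ?_⟩
      rintro _ ⟨B, hB, rfl⟩ hlt
      rw [deg_eq, deg_eq, h1] at hlt
      obtain ⟨i, hi⟩ := psi_of_le (LeT.of_turing hlt.le)
      obtain ⟨j, hj⟩ := h4 i (by rw [hi, Sd_dg]) (by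
        rw [hi, thd, Sd_dg, ← @Pa.eq_completeTheory _ ℕ B (@completeTheory.isMaximal LA ℕ (Sd y) _) hB]
        exact fun _ => Iff.rfl)
      rw [hi] at hj
      exact hlt.not_ge (show TuringReducible (hat y) (hat (dg B)) from (hj ▸ psi_le j (dg B)).turing)
  rw [e]
  have m1 : ∀ σ, Measurable fun p : CS × CS => σ ∈ thd p.2 := fun σ =>
    (meas_thd σ).comp measurable_snd
  have m2 : ∀ i, Measurable fun p : CS × CS => Psi i p.2 := fun i => (meas_psi i).comp measurable_snd
  exact analytic_ex ((meas_eq measurable_fst (measurable_pi_lambda _ fun n => meas_decide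
    (Measurable.exists fun σ => (m1 σ).and measurable_const))).and
    ((meas_eq (meas_dg.comp measurable_snd) measurable_snd).and
    ((Measurable.forall fun σ => measurable_const.imp (m1 σ)).and
    ((Measurable.forall fun σ => (m1 σ).iff measurable_const).not.and
    (Measurable.forall fun i => (meas_eq (meas_dg.comp (m2 i)) (m2 i)).imp
      ((Measurable.forall fun σ => ((meas_thd σ).comp (m2 i)).iff (m1 σ)).imp
        (Measurable.exists fun j => meas_eq ((meas_psi j).comp (m2 i)) measurable_snd)))))))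

theorem tg_iff {χ : CS} {T : LA.Theory} : (∀ n, χ n = true ↔ ∃ σ ∈ T, gn σ = n) ↔ χ = tg T :=
  ⟨fun h => funext fun n => Bool.eq_iff_iff.2 (by simpa [tg] using h n),
    fun h n => by simp [h, tg]⟩

theorem tg_inj {T T' : LA.Theory} (h : T.IsMaximal) (h' : T'.IsMaximal) (e : tg T = tg T') :
    T = T' := by
  obtain ⟨M⟩ := h.1
  obtain ⟨N⟩ := h'.1
  rw [Pa.eq_completeTheory h M.is_model, Pa.eq_completeTheory h' N.is_model] at e ⊢
  exact Set.ext fun σ => (tg_gn M σ).symm.trans (e ▸ tg_gn N σ)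

theorem c_main (sol : SolovayStmt) (A : Set CS) : AnalyticSet A ↔
    ∃ f : CS → CS, Continuous f ∧ ∀ x, ∃ T : LA.Theory, T.IsMaximal ∧ PA ⊆ T ∧ T ≠ TA ∧
      f x = tg T ∧ (x ∈ A ↔ Yes T) := by
  refine ⟨c_hard sol, fun ⟨f, hf, h⟩ => ?_⟩
  have : PolishSpace CS := {}
  refine (congrArg AnalyticSet (Set.ext fun x => ?_)).mpr (c_an.preimage hf)
  obtain ⟨T, h1, h2, h3, h4, h5⟩ := h x
  exact ⟨fun k => ⟨T, h1, h2, h3, h4, h5.1 k⟩, fun ⟨T', k1, _, _, k4, k5⟩ =>
    h5.2 (tg_inj k1 h1 (k4.symm.trans h4) ▸ k5)⟩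

end Pool.Agent.MinDeg
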