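import Pool.Agent.P.MP_f8f34d_lc.C.Tag

/-! Tagged trees: a Borel set with large sections over branches is hit along every ill founded
relation of a continuous family. -/

namespace Pool.Agent.MinDeg

open Filter Topology

/-- the relation child, parent -/
def rho (v : ℕ → Vd) : CS := fun i =>
  decide ((v i.unpair.1).1.1 = i.unpair.2 ∧ i.unpair.2 < i.unpair.1)

/-- the marked nodes in increasing order -/
noncomputable def brn (v : ℕ → Vd) : ℕ → ℕ
  | 0 => sInf {m | (v m).1.2 = true}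
  | k + 1 => sInf {m | brn v k < m ∧ (v m).1.2 = true}

noncomputable def outv (v : ℕ → Vd) : (CS × (ℕ → ℕ)) × (ℕ → ℕ × Bool) :=
  ((rho v, brn v), fun n => (v n).2)

theorem meas_sInf {α : Type} [MeasurableSpace α] {P : α → ℕ → Prop}
    (h : ∀ m, Measurable fun x => P x m) : Measurable fun x => sInf {m | P x m} := by
  refine measurable_to_countable' fun n => ?_
  have e : (fun x => sInf {m | P x m}) ⁻¹' {n} =
      {x | (P x n ∧ ∀ m, m < n → ¬ P x m) ∨ (n = 0 ∧ ∀ m, ¬ P x m)} := by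
    ext x
    simp only [Set.mem_preimage, Set.mem_singleton_iff, Set.mem_ofPred_eq]
    constructor
    · rintro rfl
      by_cases k : ∃ m, P x m
      · exact Or.inl ⟨Nat.sInf_mem (s := {m | P x m}) k, fun m hm => Nat.notMem_of_lt_sInf hm⟩
      · exact Or.inr ⟨Nat.sInf_eq_zero.2 (Or.inr (Set.eq_empty_of_forall_notMem fun m hm =>
          k ⟨m, hm⟩)), fun m hm => k ⟨m, hm⟩⟩
    · rintro (⟨h1, h2⟩ | ⟨rfl, h2⟩)
      · exact le_antisymm (Nat.sInf_le h1)
          (not_lt.1 fun k => h2 _ k (Nat.sInf_mem (s := {m | P x m}) ⟨n, h1⟩))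
      · exact Nat.sInf_eq_zero.2 (Or.inr (Set.eq_empty_of_forall_notMem h2))
  rw [e]
  exact measurableSet_setOfPred.2 (((h n).and (Measurable.forall fun m =>
    measurable_const.imp (h m).not)).or (measurable_const.and (Measurable.forall fun m => (h m).not)))

theorem meas_outv : Measurable outv := by
  have hm : ∀ m, Measurable fun v : ℕ → Vd => (v m).1.2 = true := fun m =>
    (measurable_of_countable fun d : Vd => d.1.2 = true).comp (measurable_pi_apply m)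
  refine Measurable.prodMk (Measurable.prodMk (measurable_pi_lambda _ fun i => ?_)
    (measurable_pi_lambda _ fun k => ?_)) (measurable_pi_lambda _ fun n => ?_)
  · exact (measurable_of_countable fun d : Vd =>
      decide (d.1.1 = i.unpair.2 ∧ i.unpair.2 < i.unpair.1)).comp (measurable_pi_apply _)
  · induction k with
    | zero => exact meas_sInf hm
    | succ k ih =>
      exact meas_sInf fun m => ((measurable_of_countable fun j : ℕ => j < m).comp ih).and (hm m)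
  · exact measurable_snd.comp (measurable_pi_apply n)

theorem brn_chain {v : ℕ → Vd} {t : ℕ → Tg} (h : ∀ n, Vok v t n)
    (hi : ∀ k, ∃ m, k ≤ m ∧ (v m).1.2 = true) (d : ℕ) :
    rho v (Nat.pair (brn v (d + 1)) (brn v d)) = true := by
  have h1 : ∀ k, brn v k < brn v (k + 1) ∧ (v (brn v (k + 1))).1.2 = true := fun k =>
    Nat.sInf_mem (s := {m | brn v k < m ∧ (v m).1.2 = true}) (hi (brn v k + 1))
  have h2 : (v (brn v d)).1.2 = true := by
    cases d with
    | zero => exact Nat.sInf_mem (s := {m | (v m).1.2 = true}) ((hi 0).imp fun _ k => k.2)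
    | succ d => exact (h1 d).2
  obtain ⟨-, k1, k2⟩ := (h _).2 (h1 d).2
  obtain ⟨k3, k4⟩ := k2 _ (h1 d).1 h2
  simp only [rho, Nat.unpair_pair, decide_eq_true_eq]
  refine ⟨le_antisymm (not_lt.1 fun k => ?_) k3, (h1 d).1⟩
  exact Nat.notMem_of_lt_sInf (s := {m | brn v d < m ∧ (v m).1.2 = true}) k4 ⟨k, k1 k4⟩

theorem dns_mark (k : ℕ) : Dns QV {p | ∃ m, k ≤ m ∧ m < p.1 ∧ (p.2.1 m).1.2 = true} := by
  intro p0 hp0
  obtain ⟨p, hp, hl, hk⟩ : ∃ p, QV p ∧ QL p p0 ∧ k ≤ p.1 :=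
    ⟨pad p0 (p0.1 + k), pad_val hp0 _, pad_le (by omega), Nat.le_add_left _ _⟩
  obtain ⟨b, hb1, hb2⟩ : ∃ b, (b < p.1 → (p.2.1 b).1.2 = true) ∧
      ∀ m < p.1, (p.2.1 m).1.2 = true → m ≤ b ∧ b < p.1 := by
    by_cases h : ∃ m, m < p.1 ∧ (p.2.1 m).1.2 = true
    · obtain ⟨b, hb, hmax⟩ := Set.exists_max_image {m | m < p.1 ∧ (p.2.1 m).1.2 = true} id
        ((Set.finite_lt_nat p.1).subset fun _ h => h.1) h
      exact ⟨b, fun _ => hb.2, fun m h1 h2 => ⟨hmax m ⟨h1, h2⟩, hb.1⟩⟩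
    · exact ⟨p.1, fun e => absurd e (lt_irrefl _), fun m h1 h2 => absurd ⟨m, h1, h2⟩ h⟩
  have u1 : ∀ m < p.1, Function.update p.2.1 p.1 ((b, true), 0, false) m = p.2.1 m :=
    fun m hm => Function.update_of_ne hm.ne _ _
  have u2 : ∀ m < p.1, Function.update p.2.2 p.1 none m = p.2.2 m :=
    fun m hm => Function.update_of_ne hm.ne _ _
  refine ⟨(p.1 + 1, Function.update p.2.1 p.1 ((b, true), 0, false), Function.update p.2.2 p.1 none),
    fun n hn => ?_, QL.trans ⟨Nat.le_succ _, fun n hn => ⟨u1 n hn, u2 n hn⟩⟩ hl,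
    p.1, hk, Nat.lt_succ_self _, by simp⟩
  rcases Nat.lt_succ_iff_lt_or_eq.1 hn with h | rfl
  · exact (hp n h).congr fun m hm => ⟨congrArg _ (u1 m (hm.trans_lt h)), u2 m (hm.trans_lt h)⟩
  · unfold Vok
    simp only [Function.update_self]
    refine ⟨fun h y hy => ?_, fun _ => ⟨trivial, fun h => ?_, fun m hm h => ?_⟩⟩
    · rw [u2 b h, ((hp b h).2 (hb1 h)).1] at hy
      cases hy
    · rw [u1 b h]; exact hb1 h
    · rw [u1 m hm] at h; exact hb2 m hm h

/-- some condition forces the set -/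
theorem exists_forced {G : Set ((CS × (ℕ → ℕ)) × (ℕ → ℕ × Bool))}
    (hne : ∀ (ρ : CS) (a : ℕ → ℕ), (∀ d, ρ (Nat.pair (a (d + 1)) (a d)) = true) →
      ∀ GG ∈ residual (ℕ → ℕ × Bool), ∃ z ∈ GG, ((ρ, a), z) ∈ G)
    {D : ℕ → Set Qc} {F' : Set Qc} (h1 : ∀ i, Dns QV (D i))
    (h2 : ∀ i, ∀ p ∈ D i, ∀ q, QV q → QL q p → q ∈ D i) (h3 : D 0 ⊆ F')
    (h4 : ∀ v t, (∀ n, Vok v t n) → (∀ i, ∃ N, (N, v, t) ∈ D i) →
      ∀ N, (N, v, t) ∈ F' → outv v ∉ G) : False := by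
  let E : ℕ ⊕ ℕ × List (ℕ × Bool) → Set Qc := Sum.elim
    (fun k => {p | ∃ m, k ≤ m ∧ m < p.1 ∧ (p.2.1 m).1.2 = true})
    fun w => {p | ∃ z : ℕ → ℕ × Bool, (∀ n < w.2.length, z n = w.2.getD n default) ∧
      (p.1, fun n => ((p.2.1 n).1, z n), p.2.2) ∈ D w.1}
  obtain ⟨v, t, hv, hE⟩ := exists_generic E (by
    rintro (k | ⟨i, l⟩)
    · exact dns_mark k
    · intro p0 hp0
      obtain ⟨p, hp, hl, hk⟩ : ∃ p, QV p ∧ QL p p0 ∧ l.length ≤ p.1 :=
        ⟨pad p0 (p0.1 + l.length), pad_val hp0 _, pad_le (by omega), Nat.le_add_left _ _⟩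
      obtain ⟨q, a, b, c⟩ := h1 i (p.1, fun n => ((p.2.1 n).1, l.getD n default), p.2.2) hp
      refine ⟨(q.1, fun n => ((q.2.1 n).1, (p.2.1 n).2), q.2.2), a, QL.trans (q := p) ⟨b.1, fun n hn =>
        ⟨?_, (b.2 n hn).2⟩⟩ hl, fun n => (q.2.1 n).2, fun n hn => ?_, c⟩
      · show ((q.2.1 n).1, (p.2.1 n).2) = p.2.1 n
        rw [(b.2 n hn).1]
      · show (q.2.1 n).2 = _
        rw [(b.2 n (hn.trans_le hk)).1]) (by
    rintro (k | ⟨i, l⟩) p hp q a b
    · obtain ⟨m, k1, k2, k3⟩ := hp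
      exact ⟨m, k1, k2.trans_le b.1, (b.2 m k2).1 ▸ k3⟩
    · obtain ⟨z, k1, k2⟩ := hp
      refine ⟨z, k1, h2 i _ k2 _ a ⟨b.1, fun n hn => ⟨?_, (b.2 n hn).2⟩⟩⟩
      show ((q.2.1 n).1, z n) = ((p.2.1 n).1, z n)
      rw [(b.2 n hn).1])
  have hres : ∀ i, {z : ℕ → ℕ × Bool | ∃ N, (N, fun n => ((v n).1, z n), t) ∈ D i} ∈
      residual (ℕ → ℕ × Bool) := fun i => by
    refine residual_of_dense_open (isOpen_iff_forall_mem_open.2 ?_) ?_
    · rintro z ⟨N, hN⟩
      refine ⟨PiNat.cylinder z N, fun z' hz' => ⟨N, h2 i _ hN _ (fun n _ => hv n)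
        ⟨le_rfl, fun n hn => ⟨?_, rfl⟩⟩⟩, PiNat.isOpen_cylinder _ _ _, PiNat.self_mem_cylinder _ _⟩
      show ((v n).1, z' n) = ((v n).1, z n)
      rw [hz' n hn]
    · refine (PiNat.isTopologicalBasis_cylinders _).dense_iff.2 ?_
      rintro _ ⟨x, n, rfl⟩ -
      obtain ⟨N, z, k1, k2⟩ := hE (Sum.inr (i, (List.range n).map x))
      refine ⟨z, fun m hm => ?_, N, k2⟩
      rw [k1 m (by simpa using hm)]
      simp [List.getD_eq_getElem?_getD, hm]
  obtain ⟨z, hz, hG⟩ := hne (rho v) (brn v) (brn_chain hv fun k => by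
    obtain ⟨N, m, k1, -, k2⟩ := hE (Sum.inl k)
    exact ⟨m, k1, k2⟩) _ (countable_iInter_mem.2 hres)
  have hz' := Set.mem_iInter.1 hz
  obtain ⟨N, hN⟩ := hz' 0
  refine h4 (fun n => ((v n).1, z n)) t hv hz' N (h3 hN) ?_
  have e : brn (fun n => ((v n).1, z n)) = brn v := funext fun k => by
    induction k with
    | zero => rfl
    | succ k ih => rw [brn, brn, ih]
  unfold outv
  rw [e]
  exact hG

/-- new marks and second free coordinates -/
def ovb (v : ℕ → Vd) (m : ℕ → Bool × Bool) : ℕ → Vd :=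
  fun n => (((v n).1.1, (m n).1), (v n).2.1, (m n).2)

theorem lc_dep {X σ τ : Type _} [TopologicalSpace X] {S : X → σ} {f : σ → X → τ}
    (h : IsLocallyConstant S) (k : ∀ s, IsLocallyConstant (f s)) :
    IsLocallyConstant fun x => f (S x) x :=
  (IsLocallyConstant.iff_eventually_eq _).2 fun x => by
    filter_upwards [(IsLocallyConstant.iff_eventually_eq _).1 h x,
      (IsLocallyConstant.iff_eventually_eq _).1 (k (S x)) x] with y h1 h2
    rw [h1, h2]

section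
variable {U : Type} (o : Prop) (r : U → U → Prop)

/-- tags and high tags decrease along edges -/
def SV (s : Qc × (ℕ → U × ℕ)) : Prop := ∀ n < s.1.1, (s.1.2.1 n).1.1 < n →
  tlt (s.1.2.2 n) (s.1.2.2 (s.1.2.1 n).1.1) ∧ (s.1.2.2 n = none →
    r (s.2 n).1 (s.2 (s.1.2.1 n).1.1).1 ∨
      ((s.2 n).1 = (s.2 (s.1.2.1 n).1.1).1 ∧ (s.2 n).2 < (s.2 (s.1.2.1 n).1.1).2))

/-- the overlay of a list -/
def ovl (p : Qc) (l : List (Bool × Bool)) : Qc :=
  (p.1, ovb p.2.1 fun n => l.getD n (false, false), p.2.2)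

/-- the list of marks and second free coordinates -/
def lsq (q : Qc) : List (Bool × Bool) :=
  (List.range q.1).map fun n => ((q.2.1 n).1.2, (q.2.1 n).2.2)

theorem lsq_lt (q : Qc) {n : ℕ} (hn : n < q.1) :
    (lsq q).getD n (false, false) = ((q.2.1 n).1.2, (q.2.1 n).2.2) := by
  simp [lsq, List.getD_eq_getElem?_getD, hn]

theorem lsq_mark {q : Qc} {n : ℕ} (h : ((lsq q).getD n (false, false)).1 = true) :
    n < q.1 ∧ (q.2.1 n).1.2 = true := by
  by_cases hn : n < q.1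
  · rw [lsq_lt q hn] at h
    exact ⟨hn, h⟩
  · rw [List.getD_eq_default _ _ (by simpa [lsq] using hn)] at h
    exact absurd h Bool.false_ne_true

def Cnd (s : Qc × (ℕ → U × ℕ)) (w : ℕ × List (Bool × Bool) × U) : Prop :=
  QW o (ovl s.1 w.2.1) ∧ ∀ n < s.1.1, (w.2.1.getD n (false, false)).1 = true → r w.2.2 (s.2 n).1

open Classical in
noncomputable def stp (ex : ℕ → Qc → Qc) (s : Qc × (ℕ → U × ℕ)) (w : ℕ × List (Bool × Bool) × U) :
    Qc × (ℕ → U × ℕ) :=
  if Cnd o r s w then (ex w.1 (ovl s.1 w.2.1),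
    fun n => if n < s.1.1 then s.2 n else (w.2.2, (ex w.1 (ovl s.1 w.2.1)).1 - n))
  else (pad s.1 (s.1.1 + 1), s.2)

/-- what the extension operator does -/
def ExOk (D : ℕ → Set Qc) (ex : ℕ → Qc → Qc) : Prop := ∀ i p, QW o p → QW o (ex i p) ∧
  QL (ex i p) p ∧ p.1 < (ex i p).1 ∧ ex i p ∈ D i ∧
    ∀ n, p.1 ≤ n → n < (ex i p).1 → ((ex i p).2.1 n).1.2 = false → (ex i p).2.2 n ≠ none

variable {o r} {D : ℕ → Set Qc} {ex : ℕ → Qc → Qc}

theorem stp_le (h : ExOk o D ex) (s : Qc × (ℕ → U × ℕ)) (w : ℕ × List (Bool × Bool) × U) :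
    s.1.1 < (stp o r ex s w).1.1 ∧ ∀ n < s.1.1, (((stp o r ex s w).1.2.1 n).1.1,
      ((stp o r ex s w).1.2.1 n).2.1, (stp o r ex s w).1.2.2 n, (stp o r ex s w).2 n) =
      ((s.1.2.1 n).1.1, (s.1.2.1 n).2.1, s.1.2.2 n, s.2 n) := by
  unfold stp
  split_ifs with c
  · obtain ⟨-, k2, k3, -⟩ := h w.1 _ c.1
    refine ⟨k3, fun n hn => ?_⟩
    dsimp only
    rw [(k2.2 n hn).1, (k2.2 n hn).2, if_pos hn]
    rfl
  · refine ⟨Nat.lt_succ_self _, fun n hn => ?_⟩
    dsimp only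
    rw [((pad_le (Nat.le_succ _)).2 n hn).1, ((pad_le (Nat.le_succ _)).2 n hn).2]

theorem stp_sv (h : ExOk o D ex) {s : Qc × (ℕ → U × ℕ)} (hs : SV r s)
    (w : ℕ × List (Bool × Bool) × U) : SV r (stp o r ex s w) := by
  intro n hn hb
  by_cases k : n < s.1.1
  · have e := fun m hm => (stp_le (r := r) h s w).2 m hm
    simp only [Prod.mk.injEq] at e
    rw [(e n k).1] at hb ⊢
    rw [(e n k).2.2.1, (e n k).2.2.2, (e _ (hb.trans k)).2.2.1, (e _ (hb.trans k)).2.2.2]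
    exact hs n k hb
  revert hn hb
  unfold stp
  split_ifs with c
  · obtain ⟨k1, k2, k3, -, k5⟩ := h w.1 _ c.1
    dsimp only
    intro hn hb
    refine ⟨(k1.1 n hn).1 hb, fun e => ?_⟩
    have m1 : ((ex w.1 (ovl s.1 w.2.1)).2.1 n).1.2 = true := by
      by_contra hc
      exact k5 n (not_lt.1 k) hn (by simpa using hc) e
    have m2 := ((k1.1 n hn).2 m1).2.1 hb
    generalize ((ex w.1 (ovl s.1 w.2.1)).2.1 n).1.1 = b at hb m2
    rw [if_neg k]
    split_ifs with kb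
    · rw [(k2.2 b kb).1] at m2
      exact Or.inl (c.2 b kb m2)
    · exact Or.inr ⟨rfl, by dsimp only; omega⟩
  · dsimp only
    intro _ hb
    rw [(pad_new k).1] at hb
    exact absurd hb (lt_irrefl _)

theorem stp_lc {X : Type} [TopologicalSpace X] {rel : X → U → U → Prop}
    (lc : ∀ a b, IsLocallyConstant fun x => rel x a b) (o : Prop) (ex : ℕ → Qc → Qc)
    (s : Qc × (ℕ → U × ℕ)) (w : ℕ × List (Bool × Bool) × U) :
    IsLocallyConstant fun x => stp o (rel x) ex s w := by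
  refine (IsLocallyConstant.iff_eventually_eq _).2 fun x => ?_
  filter_upwards [((Finset.range s.1.1).eventually_all).2 fun n _ =>
    (IsLocallyConstant.iff_eventually_eq _).1 (lc w.2.2 (s.2 n).1) x] with y hy
  have : Cnd o (rel y) s w ↔ Cnd o (rel x) s w :=
    and_congr_right fun _ => forall₂_congr fun n hn => by rw [hy n (Finset.mem_range.2 hn)]
  unfold stp
  rw [propext this]

end

theorem exists_ex {o : Prop} {D : ℕ → Set Qc}
    (h : ∀ i, ∃ η, Nice (QW o) η (D i) ∧ Dns (QW o) (D i)) : ∃ ex, ExOk o D ex := by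
  have H : ∀ i p, ∃ q, QW o p → QW o q ∧ QL q p ∧ p.1 < q.1 ∧ q ∈ D i ∧
      ∀ n, p.1 ≤ n → n < q.1 → (q.2.1 n).1.2 = false → q.2.2 n ≠ none := fun i p => by
    by_cases hp : QW o p
    · obtain ⟨η, h1, h2⟩ := h i
      obtain ⟨q, a, b, c⟩ := h2 _ (pad_w hp (p.1 + 1))
      obtain ⟨q', k1, k2, k3, k4⟩ := retagW hp a (QS.refl (η + 1) p) (b.trans (pad_le (Nat.le_succ _)))
      exact ⟨q', fun _ => ⟨k1, k2, k3.1 ▸ b.1, h1.2 q c q' a k1 k3, k4⟩⟩
    · exact ⟨p, fun k => absurd k hp⟩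
  choose ex hex using H
  exact ⟨ex, hex⟩

theorem wf_of_tags {U : Type} {r : U → U → Prop} (hr : WellFounded r) (par : ℕ → ℕ) (t : ℕ → Tg)
    (h : ℕ → U × ℕ) (H : ∀ n, par n < n → tlt (t n) (t (par n)) ∧ (t n = none →
      r (h n).1 (h (par n)).1 ∨ ((h n).1 = (h (par n)).1 ∧ (h n).2 < (h (par n)).2))) :
    WellFounded fun a b : ℕ => par a = b ∧ b < a := by
  have w := Sum.lex_wf (WellFounded.prod_lex (wellFounded_lt (α := Ordinal.{0}))
    (wellFounded_lt (α := ℕ))) (WellFounded.prod_lex hr (wellFounded_lt (α := ℕ)))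
  refine Subrelation.wf ?_ (InvImage.wf (fun n => (t n).elim (Sum.inr (h n)) Sum.inl) w)
  rintro a _ ⟨rfl, hb⟩
  obtain ⟨h1, h2⟩ := H a hb
  unfold InvImage
  beta_reduce
  rcases e : t (par a) with _ | y
  · rcases e' : t a with _ | x
    · exact Sum.Lex.inr (Prod.lex_def.2 (h2 e'))
    · exact Sum.Lex.sep _ _
  · obtain ⟨x, k1, k2⟩ := h1 y e
    rw [k1]
    exact Sum.Lex.inl (Prod.lex_def.2 k2)

theorem not_acc_step {U : Type} {r : U → U → Prop} {u : U} (h : ¬ Acc r u) :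
    ∃ u', r u' u ∧ ¬ Acc r u' := by
  by_contra hc
  exact h ⟨u, fun u' k => by_contra fun k' => hc ⟨u', k, k'⟩⟩

theorem steel {X U : Type} [TopologicalSpace X] [Countable U] (rel : X → U → U → Prop)
    (lc : ∀ a b, IsLocallyConstant fun x => rel x a b)
    (tr : ∀ x a b c, rel x a b → rel x b c → rel x a c) (u0 : U)
    {G : Set ((CS × (ℕ → ℕ)) × (ℕ → ℕ × Bool))} (hG : MeasurableSet G)
    (hne : ∀ (ρ : CS) (a : ℕ → ℕ), (∀ d, ρ (Nat.pair (a (d + 1)) (a d)) = true) →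
      ∀ GG ∈ residual (ℕ → ℕ × Bool), ∃ z ∈ GG, ((ρ, a), z) ∈ G)
    {Φ : CS → (ℕ → ℕ) → CS} (hΦ : Measurable fun p : CS × (ℕ → ℕ) => Φ p.1 p.2) :
    ∃ (f : X → CS) (g : X → ℕ → ℕ), (Continuous fun x => Φ (f x) (g x)) ∧
      (∀ x, WellFounded (rel x) → WF (f x)) ∧ ∀ x, ¬ Acc (rel x) u0 →
        ∃ (a : ℕ → ℕ) (z : ℕ → ℕ × Bool), (∀ n, (z n).1 = g x n) ∧ ((f x, a), z) ∈ G := by
  obtain ⟨η, D, F, F', h1, h2, h3, h4, h5⟩ := dec_of_measurable True (meas_outv hG)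
  obtain ⟨ex, hex⟩ := exists_ex fun i => ⟨η, h1 i⟩
  rw [qw_true] at h1 h2 h3 h4 h5
  obtain ⟨p0, v0, f0⟩ : ∃ p, QV p ∧ p ∈ F := by
    by_contra hc
    refine exists_forced hne (D := fun i => Nat.casesOn i F' D) (F' := F') (fun i => ?_)
      (fun i => ?_) subset_rfl fun v t k1 k2 N =>
        (h5 v t (fun _ n _ => k1 n) (fun i => k2 (i + 1)) N).2
    · cases i with
      | zero =>
        intro p hp
        obtain ⟨q, a, b, c⟩ := h4 p hp
        exact ⟨q, a, b, c.resolve_left fun e => hc ⟨q, a, e⟩⟩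
      | succ i => exact (h1 i).2
    · cases i with
      | zero => exact h3.1
      | succ i => exact (h1 i).1.1
  have hA : ∀ n, Dec False {v | Φ (rho v) (fun m => (v m).2.1) n = true} := fun n =>
    dec_of_measurable False (measurableSet_setOfPred.2 (measurable_bit (hΦ.comp
      (f := fun v : ℕ → Vd => (rho v, fun m => (v m).2.1)) (meas_outv.fst.fst.prodMk
        (measurable_pi_lambda _ fun m => (measurable_pi_apply m).snd.fst))) n))
  choose η' D0 E E' g1 g2 g3 g4 g5 using hA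
  let D1 : ℕ → ℕ → Set Qc := fun n j => Nat.casesOn j (E n ∪ E' n) (D0 n)
  have hD1 : ∀ n j, Nice (QW False) (η' n) (D1 n j) ∧ Dns (QW False) (D1 n j) := fun n j => by
    cases j
    exacts [⟨(g2 n).union (g3 n), g4 n⟩, g1 n _]
  obtain ⟨ex', hex'⟩ := exists_ex (D := fun i => D1 i.unpair.1 i.unpair.2) fun i => ⟨_, hD1 _ _⟩
  have : Nonempty U := ⟨u0⟩
  obtain ⟨e, he⟩ := exists_surjective_nat (ℕ × List (Bool × Bool) × U)
  let nx : X → ℕ → (Qc × (ℕ → U × ℕ)) × List (Bool × Bool) →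
      (Qc × (ℕ → U × ℕ)) × List (Bool × Bool) := fun x k s =>
    if k % 2 = 0 then (stp True (rel x) ex s.1 (e (k / 2).unpair.1), s.2)
    else (stp False (rel x) ex' s.1 (k / 2, s.2, u0),
      lsq (stp False (rel x) ex' s.1 (k / 2, s.2, u0)).1)
  let T : X → ℕ → (Qc × (ℕ → U × ℕ)) × List (Bool × Bool) := fun x k =>
    Nat.rec ((p0, fun n => (u0, p0.1 - n)), []) (nx x) k
  have T0 : ∀ x k, T x (2 * k + 1) =
      (stp True (rel x) ex (T x (2 * k)).1 (e k.unpair.1), (T x (2 * k)).2) := fun x k => by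
    show nx x (2 * k) (T x (2 * k)) = _
    simp only [nx]
    rw [if_pos (Nat.mul_mod_right 2 k), Nat.mul_div_cancel_left k two_pos]
  have T1 : ∀ x k, T x (2 * k + 1 + 1) =
      (stp False (rel x) ex' (T x (2 * k + 1)).1 (k, (T x (2 * k + 1)).2, u0),
        lsq (stp False (rel x) ex' (T x (2 * k + 1)).1 (k, (T x (2 * k + 1)).2, u0)).1) :=
    fun x k => by
      show nx x (2 * k + 1) (T x (2 * k + 1)) = _
      simp only [nx]
      rw [if_neg (show ¬ (2 * k + 1) % 2 = 0 by omega), show (2 * k + 1) / 2 = k by omega]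
  have lcT : ∀ k, IsLocallyConstant fun x => T x k := fun k => by
    induction k with
    | zero => exact IsLocallyConstant.const _
    | succ k ih =>
      refine lc_dep (f := fun s x => nx x k s) ih fun s => ?_
      simp only [nx]
      split_ifs
      · exact (stp_lc lc _ _ _ _).comp fun a => (a, s.2)
      · exact (stp_lc lc _ _ _ _).comp fun a => (a, lsq a.1)
  obtain ⟨S, hS⟩ : ∃ S : X → ℕ → Qc × (ℕ → U × ℕ), ∀ x k, S x k = (T x k).1 := ⟨_, fun _ _ => rfl⟩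
  have S1 : ∀ x k, S x (2 * k + 1) = stp True (rel x) ex (S x (2 * k)) (e k.unpair.1) :=
    fun x k => by rw [hS, hS, T0]
  have S2 : ∀ x k, S x (2 * k + 1 + 1) =
      stp False (rel x) ex' (S x (2 * k + 1)) (k, (T x (2 * k + 1)).2, u0) :=
    fun x k => by rw [hS, hS, T1]
  have alt : ∀ x k, ∃ (o : Prop) (D : ℕ → Set Qc) (ex : ℕ → Qc → Qc)
      (w : ℕ × List (Bool × Bool) × U), ExOk o D ex ∧ S x (k + 1) = stp o (rel x) ex (S x k) w :=
    fun x k => by
      obtain ⟨j, rfl | rfl⟩ := Nat.even_or_odd' k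
      · exact ⟨_, _, _, _, hex, S1 x j⟩
      · exact ⟨_, _, _, _, hex', S2 x j⟩
  have sv : ∀ x k, SV (rel x) (S x k) := fun x k => by
    induction k with
    | zero =>
      rw [hS]
      intro n hn hb
      exact ⟨(v0 n hn).1 hb, fun _ => Or.inr ⟨rfl, by
        show p0.1 - n < p0.1 - (p0.2.1 n).1.1
        have h1 : n < p0.1 := hn
        have h2 : (p0.2.1 n).1.1 < n := hb
        omega⟩⟩
    | succ k ih =>
      obtain ⟨o, D, ex, w, a, b⟩ := alt x k
      rw [b]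
      exact stp_sv a ih _
  have inc : ∀ x k, (S x k).1.1 < (S x (k + 1)).1.1 := fun x k => by
    obtain ⟨o, D, ex, w, a, b⟩ := alt x k
    rw [b]
    exact (stp_le a _ _).1
  have mono : ∀ x, StrictMono fun k => (S x k).1.1 := fun x => strictMono_nat_of_lt_succ (inc x)
  have big : ∀ x n, n < (S x (n + 1)).1.1 := fun x n => (mono x).id_le (n + 1)
  have lim : ∀ x k, ∀ n < (S x k).1.1, ((S x (n + 1)).1.2.1 n).1.1 = ((S x k).1.2.1 n).1.1 ∧
      ((S x (n + 1)).1.2.1 n).2.1 = ((S x k).1.2.1 n).2.1 ∧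
      (S x (n + 1)).1.2.2 n = (S x k).1.2.2 n ∧ (S x (n + 1)).2 n = (S x k).2 n := fun x k n hn => by
    simpa only [Prod.mk.injEq] using lim_agree (N := fun k => (S x k).1.1)
      (d := fun k n => (((S x k).1.2.1 n).1.1, ((S x k).1.2.1 n).2.1, (S x k).1.2.2 n, (S x k).2 n))
      (inc x) (fun k => by
        obtain ⟨o, D, ex, w, a, b⟩ := alt x k
        rw [b]
        exact (stp_le a _ _).2) k n hn
  have b0 : ∀ x k s, k ≤ s → QL (ovl (S x s).1 (lsq (S x k).1)) (S x k).1 := fun x k s hk => by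
    have hN : (S x k).1.1 ≤ (S x s).1.1 := (mono x).monotone hk
    refine ⟨hN, fun n hn => ?_⟩
    obtain ⟨k1, k2, k3, -⟩ := lim x k n hn
    obtain ⟨m1, m2, m3, -⟩ := lim x s n (hn.trans_le hN)
    exact ⟨by simp only [ovl, ovb, lsq_lt _ hn, ← m1, ← m2, k1, k2], m3.symm.trans k3⟩
  have gen : ∀ x (o : Prop) (κ : ℕ → ℕ), (∀ i, κ i < κ (i + 1)) → (∀ i, QW o (S x (κ i)).1) →
      (∀ i, QL (S x (κ (i + 1))).1 (S x (κ i)).1) → ∃ v t, (∀ N, QW o (N, v, t)) ∧
        (∀ i, QL ((S x (κ i)).1.1, v, t) (S x (κ i)).1) ∧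
        rho v = rho (fun n => (S x (n + 1)).1.2.1 n) ∧
        ∀ n, (v n).2.1 = ((S x (n + 1)).1.2.1 n).2.1 := fun x o κ a1 a2 a3 => by
    have inc' : ∀ i, (S x (κ i)).1.1 < (S x (κ (i + 1))).1.1 := fun i => mono x (a1 i)
    have l1 := lim_agree (N := fun i => (S x (κ i)).1.1) (d := fun i => (S x (κ i)).1.2.1)
      inc' fun i n hn => ((a3 i).2 n hn).1
    have big' : ∀ n, n < (S x (κ (n + 1))).1.1 := fun n =>
      (strictMono_nat_of_lt_succ inc').id_le (n + 1)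
    have le : ∀ i, QL ((S x (κ i)).1.1, fun n => (S x (κ (n + 1))).1.2.1 n,
        fun n => (S x (n + 1)).1.2.2 n) (S x (κ i)).1 := fun i =>
      ⟨le_rfl, fun n hn => ⟨l1 i n hn, (lim x _ n hn).2.2.1⟩⟩
    refine ⟨_, _, fun N => ⟨fun n _ => ((a2 (n + 1)).1 n (big' n)).congr fun m hm =>
      ⟨congrArg _ ((le (n + 1)).2 m (hm.trans_lt (big' n))).1,
        ((le (n + 1)).2 m (hm.trans_lt (big' n))).2⟩, fun n _ => (a2 (n + 1)).2 n (big' n)⟩, le,
      funext fun i => ?_, fun n => (lim x _ n (big' n)).2.1.symm⟩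
    simp only [rho, (lim x _ _ (big' i.unpair.1)).1]
  refine ⟨fun x => rho fun n => (S x (n + 1)).1.2.1 n, fun x n => ((S x (n + 1)).1.2.1 n).2.1,
    continuous_pi fun n => ?_, fun x hx => ?_, fun x hx => ?_⟩
  · classical
    suffices H : ∀ x, Φ (rho fun n => (S x (n + 1)).1.2.1 n)
        (fun n => ((S x (n + 1)).1.2.1 n).2.1) n =
          decide ((S x (2 * Nat.pair n 0 + 1 + 1)).1 ∈ E n) by
      simp only [H]
      simp only [hS]
      exact ((lcT (2 * Nat.pair n 0 + 1 + 1)).comp fun s => decide (s.1.1 ∈ E n)).continuous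
    intro x
    have key : ∀ k, (∀ m, ((T x (2 * k + 1)).2.getD m (false, false)).1 = true → False) →
        (S x (2 * k + 1 + 1)).1 = ex' k (ovl (S x (2 * k + 1)).1 (T x (2 * k + 1)).2) ∧
        QW False (ovl (S x (2 * k + 1)).1 (T x (2 * k + 1)).2) := fun k hk => by
      have cd : Cnd False (rel x) (S x (2 * k + 1)) (k, (T x (2 * k + 1)).2, u0) :=
        ⟨⟨fun m hm => ⟨fun hb => (sv x _ m hm hb).1, fun c => (hk m c).elim⟩, fun m _ => hk m⟩,
          fun m _ c => (hk m c).elim⟩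
      refine ⟨?_, cd.1⟩
      rw [S2, stp, if_pos cd]
    have nxt : ∀ k, (T x (2 * (k + 1) + 1)).2 = lsq (S x (2 * k + 1 + 1)).1 := fun k => by
      rw [T0, hS, show 2 * (k + 1) = 2 * k + 1 + 1 by ring, T1]
    have um : ∀ k m, ((T x (2 * k + 1)).2.getD m (false, false)).1 = true → False := fun k => by
      induction k with
      | zero =>
        intro m hm
        rw [T0] at hm
        exact Bool.false_ne_true hm
      | succ k ih =>
        intro m hm
        rw [nxt, (key k ih).1] at hm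
        exact (hex' k _ (key k ih).2).1.2 m (lsq_mark hm).1 (lsq_mark hm).2
    have ok := fun k => hex' k _ (key k (um k)).2
    simp only [fun k => ((key k (um k)).1).symm] at ok
    obtain ⟨v, t, c1, c2, c3, c4⟩ := gen x False (fun i => 2 * i + 1 + 1) (fun i => by omega)
      (fun i => (ok i).1) fun i => (ok (i + 1)).2.1.trans (by
        rw [nxt]
        exact b0 x _ _ (by omega))
    have mem : ∀ j, ((S x (2 * Nat.pair n j + 1 + 1)).1.1, v, t) ∈ D1 n j := fun j =>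
      (hD1 n j).1.1 _ (by simpa using (ok (Nat.pair n j)).2.2.2.1) _ (c1 _) (c2 _)
    have tru := g5 n v t c1 (fun j => ⟨_, mem (j + 1)⟩) (S x (2 * Nat.pair n 0 + 1 + 1)).1.1
    rw [← c3, ← funext c4]
    by_cases hE : (S x (2 * Nat.pair n 0 + 1 + 1)).1 ∈ E n
    · rw [decide_eq_true hE]
      exact tru.1 ((g2 n).1 _ hE _ (c1 _) (c2 _))
    · rw [decide_eq_false hE, Bool.eq_false_iff]
      have : (S x (2 * Nat.pair n 0 + 1 + 1)).1 ∈ E n ∪ E' n := by
        simpa [D1] using (ok (Nat.pair n 0)).2.2.2.1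
      exact tru.2 ((g3 n).1 _ (this.resolve_left hE) _ (c1 _) (c2 _))
  · refine Subrelation.wf (fun {a b} h => ?_) (wf_of_tags hx (fun n => ((S x (n + 1)).1.2.1 n).1.1)
      (fun n => (S x (n + 1)).1.2.2 n) (fun n => (S x (n + 1)).2 n) fun n hb => ?_)
    · simpa only [rho, Nat.unpair_pair, decide_eq_true_eq] using h
    · obtain ⟨-, -, k1, k2⟩ := lim x (n + 1) _ (hb.trans (big x n))
      rw [k1, k2]
      exact sv x (n + 1) n (big x n) hb
  let I : ℕ × U → Prop := fun w => QV (S x w.1).1 ∧ ¬ Acc (rel x) w.2 ∧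
    ∀ n < (S x w.1).1.1, ((S x w.1).1.2.1 n).1.2 = true → rel x w.2 ((S x w.1).2 n).1
  have step : ∀ (i : ℕ) (w : {w // I w}), ∃ w' : {w // I w}, w.1.1 < w'.1.1 ∧
      QL (S x w'.1.1).1 (S x w.1.1).1 ∧ (S x w'.1.1).1 ∈ D i := by
    rintro i ⟨⟨k, u⟩, a1, a2, a3⟩
    dsimp only at a1 a2 a3 ⊢
    obtain ⟨j, hj⟩ := he (i, lsq (S x k).1, u)
    have hk : k ≤ 2 * Nat.pair j k := (Nat.right_le_pair j k).trans (by omega)
    have hs : S x (2 * Nat.pair j k + 1) =
        stp True (rel x) ex (S x (2 * Nat.pair j k)) (i, lsq (S x k).1, u) := by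
      rw [S1, Nat.unpair_pair, hj]
    generalize 2 * Nat.pair j k = s at hk hs
    have hN : (S x k).1.1 ≤ (S x s).1.1 := (mono x).monotone hk
    have b2 : ∀ n, ((lsq (S x k).1).getD n (false, false)).1 = true → rel x u ((S x s).2 n).1 :=
      fun n hn => by
        obtain ⟨c1, c2⟩ := lsq_mark hn
        rw [← (lim x s n (c1.trans_le hN)).2.2.2, (lim x k n c1).2.2.2]
        exact a3 n c1 c2
    have cd : Cnd True (rel x) (S x s) (i, lsq (S x k).1, u) := by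
      refine ⟨⟨fun n hn => ?_, fun _ _ _ => trivial⟩, fun n _ => b2 n⟩
      by_cases h1 : n < (S x k).1.1
      · exact (a1 n h1).congr fun m hm => ⟨congrArg _ ((b0 x k s hk).2 m (hm.trans_lt h1)).1,
          ((b0 x k s hk).2 m (hm.trans_lt h1)).2⟩
      · exact ⟨fun hb => (sv x s n hn hb).1, fun hm => absurd (lsq_mark hm).1 h1⟩
    rw [stp, if_pos cd] at hs
    obtain ⟨k1, k2, k3, k4, -⟩ := hex i _ cd.1
    obtain ⟨u', r1, r2⟩ := not_acc_step a2
    refine ⟨⟨(s + 1, u'), ?_, r2, fun n hn hm => ?_⟩, Nat.lt_succ_of_le hk, ?_, ?_⟩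
    · rw [hs]; exact k1.1
    · dsimp only at hn hm ⊢
      rw [hs] at hm ⊢
      dsimp only at hm ⊢
      split_ifs with h1
      · rw [(k2.2 n h1).1] at hm
        exact tr x _ _ _ r1 (b2 n hm)
      · exact r1
    · dsimp only; rw [hs]; exact k2.trans (b0 x k s hk)
    · dsimp only; rw [hs]; exact k4
  choose ny n1 n2 n3 using step
  obtain ⟨u1, r1, r2⟩ := not_acc_step hx
  have S0 : S x 0 = (p0, fun n => (u0, p0.1 - n)) := hS x 0
  let W : ℕ → {w // I w} := fun i => Nat.rec ⟨(0, u1), by rw [S0]; exact v0, r2,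
    fun _ _ _ => by rw [S0]; exact r1⟩ (fun i w => ny i w) i
  obtain ⟨v, t, c1, c2, c3, c4⟩ := gen x True (fun i => (W i).1.1) (fun i => n1 i _)
    (fun i => ⟨(W i).2.1, fun _ _ _ => trivial⟩) fun i => n2 i _
  have fin := (h5 v t (fun N => (c1 N).1) (fun i => ⟨_, (h1 i).1.1 _ (n3 i (W i)) _ (c1 _).1
    (c2 (i + 1))⟩) _).1 (h2.1 _ (show (S x 0).1 ∈ F by rw [S0]; exact f0) _ (c1 _).1 (c2 0))
  refine ⟨brn v, fun n => (v n).2, c4, ?_⟩
  have fin' : ((rho v, brn v), fun n => (v n).2) ∈ G := fin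
  rwa [c3] at fin'

end Pool.Agent.MinDeg
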