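import Pool.Agent.P.MP_f8f34d_lc.C.Aux1
import Pool.Agent.P.MP_f8f34d_lc.C.Steel

/-! A Borel set of witnesses for a minimal element with large sections over branches. -/

namespace Pool.Agent.MinDeg

open FirstOrder FirstOrder.Language Pool.Agent.Lib.ComputableProp Filter

/-- the Borel form of the hypotheses of the criterion -/
def Wit (B Θ R : ℕ → CS) : Prop :=
  (∀ k z, ∃ m, (∃ j, R j = cat z (rt (B (m + 1)))) ∧ Gen (R k) z (cat z (rt (B (m + 1))))) ∧
    (∀ k, ∃ j, R j = Θ k) ∧ ¬ ExcS R fun k L => Θ k (Encodable.encode L) = true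

theorem meas_wit {α : Type} [MeasurableSpace α] {B Θ R : α → ℕ → CS} (hB : Measurable B)
    (hΘ : Measurable Θ) (hR : Measurable R) : Measurable fun a => Wit (B a) (Θ a) (R a) := by
  have h1 : ∀ z m, Measurable fun a => cat z (rt (B a (m + 1))) := fun z m =>
    (((CM.id (α := List Bool)).rt.cat Computable.id).meas z).comp ((measurable_pi_apply _).comp hB)
  have h2 : ∀ j, Measurable fun a => R a j := fun j => (measurable_pi_apply _).comp hR
  exact (Measurable.forall fun k => Measurable.forall fun z => Measurable.exists fun m =>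
    (Measurable.exists fun j => meas_eq (h2 j) (h1 z m)).and
      ((meas_gen z).comp ((h2 k).prodMk (h1 z m)))).and
    ((Measurable.forall fun k => Measurable.exists fun j =>
      meas_eq (h2 j) ((measurable_pi_apply _).comp hΘ)).and (meas_exc.comp (hR.prodMk hΘ)).not)

theorem wit_yes (sol : SolovayStmt) {Rl : CS} (W : Tower Rl) {B R : ℕ → CS}
    (h : col (B 0) 1 = W.H) (h0 : B 0 0 = W.b0) (hJ : Idl (Set.range R)) (N : Type)
    [LA.Structure N] (hN : N ⊨ W.th B) (hw : Wit B (TK (PreLA N)) R) : Yes (W.th B) := by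
  refine yes_sharp sol hJ (W.max B h).1 (W.max B h).2 (W.ne B h h0) N hN hw.2.1 ?_ ?_
  · rintro _ ⟨k, rfl⟩ z
    obtain ⟨m, h1, h2⟩ := hw.1 k z
    exact ⟨_, (lst_B W h _).of_leT ((CM.id (α := Unit)).rt.leT _ ()), h1, h2⟩
  · simpa only [TK_iff] using hw.2.2

def dY (y : ℕ → ℕ) : XX := fun n d => y (Nat.pair n d)

def tsel (x : ℕ → CS) (f : CS) : ℕ → CS := fun n => sel (f n) (x n)

theorem cont_tsel : Continuous fun p : (ℕ → CS) × CS => tsel p.1 p.2 :=
  continuous_pi fun n => (continuous_prod_of_discrete_left.2 top_sel_cont :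
    Continuous fun q : Bool × CS => sel q.1 q.2).comp
      (f := fun p : (ℕ → CS) × CS => (p.2 n, p.1 n)) (by fun_prop)

def upk (z : ℕ → ℕ × Bool) : XX × (ℕ → CS) × CS :=
  (dY fun n => (z n).1, fun n => col (lf fun i => (z i).2) n, rt fun i => (z i).2)

def pk (p : XX × (ℕ → CS) × CS) : ℕ → ℕ × Bool := fun n =>
  (p.1 n.unpair.1 n.unpair.2, jn (fun i => p.2.1 i.unpair.1 i.unpair.2) p.2.2 n)

theorem cont_upk : Continuous upk := by
  unfold upk dY col lf rt
  fun_prop

theorem cont_pk : Continuous pk := continuous_pi fun n => by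
  unfold pk jn
  split_ifs <;> fun_prop

theorem upk_pk (p : XX × (ℕ → CS) × CS) : upk (pk p) = p := by
  have e : (fun i => (pk p i).2) = jn (fun i => p.2.1 i.unpair.1 i.unpair.2) p.2.2 := rfl
  refine Prod.ext (funext fun n => funext fun d => by simp [upk, pk, dY]) (Prod.ext ?_ ?_)
  · funext n d
    simp only [upk, e, lf_jn, col, Nat.unpair_pair]
  · simp only [upk, e, rt_jn]

theorem pk_upk (z : ℕ → ℕ × Bool) : pk (upk z) = z := by
  funext n
  refine Prod.ext (by simp [upk, pk, dY]) ?_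
  have e : (fun i : ℕ => (upk z).2.1 i.unpair.1 i.unpair.2) = lf fun i => (z i).2 := by
    funext i
    simp [upk, col]
  show jn (fun i : ℕ => (upk z).2.1 i.unpair.1 i.unpair.2) (rt fun i => (z i).2) n = _
  rw [e, top_jn_eta]

theorem meas_mkB (C : Chain) (W : Tower C.Rl) :
    Measurable fun p : CS × XX => mkB C W p.1 p.2 := by
  refine measurable_pi_lambda _ fun n => ?_
  cases n with
  | zero =>
    show Measurable fun p : CS × XX => rs (rs (rs (rs zz (C.c3 p.1 p.2)) p.1) W.H) fun _ => W.b0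
    exact measurable_rs (measurable_rs (measurable_rs (measurable_rs measurable_const C.meas_c3)
      measurable_fst) measurable_const) measurable_const
  | succ n => exact (C.meas_lv n).comp measurable_snd

theorem meas_two {α β γ δ : Type} [MeasurableSpace α] [MeasurableSpace β] [MeasurableSpace γ]
    [MeasurableSpace δ] {F : β → γ → δ} (h : Measurable fun p : β × γ => F p.1 p.2) {f : α → β}
    {g : α → γ} (hf : Measurable f) (hg : Measurable g) : Measurable fun a => F (f a) (g a) :=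
  h.comp (hf.prodMk hg)

theorem exists_good (sol : SolovayStmt) : ∃ (C : Chain) (W : Tower C.Rl)
    (G : Set ((CS × (ℕ → ℕ)) × (ℕ → ℕ × Bool))), MeasurableSet G ∧
    (∀ (ρ : CS) (a : ℕ → ℕ), (∀ d, ρ (Nat.pair (a (d + 1)) (a d)) = true) →
      ∀ GG ∈ residual (ℕ → ℕ × Bool), ∃ z ∈ GG, ((ρ, a), z) ∈ G) ∧
    ∀ q ∈ G, Yes (W.th (mkB C W q.1.1 (dY fun n => (q.2 n).1))) := by
  obtain ⟨C, act, a1, a2, a4, a5, a6⟩ := exists_chain2
  obtain ⟨W⟩ := exists_tower C.Rl
  obtain ⟨sn, hsn⟩ := exists_sn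
  have ok : ∀ r Y, col (mkB C W r Y 0) 1 = W.H := fun r Y => mk0_1 _ _ _ _
  let Θ : CS → XX → ℕ → CS := fun r Y k j => tg (W.th (mkB C W r Y)) (sn k j)
  have hΘ : ∀ r Y (N : Type) [LA.Structure N], N ⊨ W.th (mkB C W r Y) → Θ r Y = TK (PreLA N) :=
    fun r Y N _ hN => funext (hsn _ (W.max _ (ok r Y)).1 (W.max _ (ok r Y)).2 N hN)
  have mΘ : Measurable fun p : CS × XX => Θ p.1 p.2 :=
    measurable_pi_lambda _ fun k => measurable_pi_lambda _ fun j =>
      (measurable_pi_apply _).comp (W.meas _ _ (meas_mkB C W) fun p => ok p.1 p.2)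
  let Q : CS → (ℕ → ℕ) → XX → (ℕ → CS) → ℕ → ℕ → CS := fun r a Y x m j =>
    jn (mkB C W r (act a Y (tsel x (tb j))) m) (Θ r (act a Y (tsel x (tb j))) m)
  let h : (ℕ → ℕ) × XX × (ℕ → CS) × CS → XX := fun p => act p.1 p.2.1 (tsel p.2.2.1 p.2.2.2)
  have ch : Continuous h := a1.comp (f := fun p : (ℕ → ℕ) × XX × (ℕ → CS) × CS =>
    (p.1, p.2.1, tsel p.2.2.1 p.2.2.2)) (continuous_fst.prodMk (continuous_snd.fst.prodMk
      (cont_tsel.comp continuous_snd.snd)))
  refine ⟨C, W, {q | Wit (mkB C W q.1.1 (upk q.2).1) (Θ q.1.1 (upk q.2).1)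
    (En (Zn (Q q.1.1 q.1.2 (h (q.1.2, upk q.2)) (upk q.2).2.1)))}, ?_, fun r a ha GG hG => ?_,
    fun q hq => ?_⟩
  · have c0 : Continuous fun q : (CS × (ℕ → ℕ)) × (ℕ → ℕ × Bool) => upk q.2 :=
      cont_upk.comp continuous_snd
    have c1 : Continuous fun q : (CS × (ℕ → ℕ)) × (ℕ → ℕ × Bool) => q.1.2 := by fun_prop
    have mm : ∀ g : (CS × (ℕ → ℕ)) × (ℕ → ℕ × Bool) → XX, Continuous g →
        (Measurable fun q => mkB C W q.1.1 (g q)) ∧ Measurable fun q => Θ q.1.1 (g q) :=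
      fun g hg => ⟨meas_two (F := mkB C W) (meas_mkB C W) measurable_fst.fst hg.measurable,
        meas_two (F := Θ) mΘ measurable_fst.fst hg.measurable⟩
    have m1 := mm (fun q => (upk q.2).1) c0.fst
    have c2 : Continuous fun q : (CS × (ℕ → ℕ)) × (ℕ → ℕ × Bool) => h (q.1.2, upk q.2) :=
      ch.comp (c1.prodMk c0)
    have m3 : Measurable fun q : (CS × (ℕ → ℕ)) × (ℕ → ℕ × Bool) =>
        Zn (Q q.1.1 q.1.2 (h (q.1.2, upk q.2)) (upk q.2).2.1) := meas_Zn fun m j => by
      have c3 : Continuous fun q : (CS × (ℕ → ℕ)) × (ℕ → ℕ × Bool) =>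
          h (q.1.2, h (q.1.2, upk q.2), (upk q.2).2.1, tb j) :=
        ch.comp (c1.prodMk (c2.prodMk (c0.snd.fst.prodMk continuous_const)))
      have m2 := mm _ c3
      exact measurable_jn ((measurable_pi_apply m).comp m2.1) ((measurable_pi_apply m).comp m2.2)
    exact measurableSet_setOfPred.2 (meas_wit m1.1 m1.2 (meas_En.comp m3))
  swap
  · obtain ⟨N, _, hN⟩ := Pa.exists_model (W.max _ (ok q.1.1 (upk q.2).1)).1
    rw [Set.mem_ofPred_eq, hΘ _ _ N hN] at hq
    exact wit_yes sol W (ok _ _) rfl (idl_En (zn_mono _)) N hN hq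
  let φ : XX × (ℕ → CS) × CS → XX × (ℕ → CS) × CS := fun p => (h (a, p), p.2)
  have cφ : Continuous φ := (ch.comp (continuous_const.prodMk continuous_id)).prodMk continuous_snd
  have iφ : ∀ p, φ (φ p) = p := fun p => Prod.ext (a2 _ _ _) rfl
  have hG1 : (fun p => pk (φ p)) ⁻¹' GG ∈ residual (XX × (ℕ → CS) × CS) :=
    tendsto_residual_of_isOpenMap (cont_pk.comp cφ) (IsOpenMap.of_inverse (cφ.comp cont_upk)
      (fun z => by simp only [Function.comp, iφ, pk_upk])
      fun p => by simp only [Function.comp, upk_pk, iφ]) hG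
  obtain ⟨Y, hY⟩ := (dense_of_mem_residual (ku2 hG1)).nonempty
  let BB : (ℕ → CS) → ℕ → CS := fun t => mkB C W r (act a Y t)
  have b0 : ∀ t t', BB t 0 = BB t' 0 := fun t t' => by simp only [BB, mkB, a4 r a ha]
  have bl : ∀ t t' n, (∀ m < n, t m = t' m) → ∀ m ≤ n, BB t m = BB t' m := fun t t' n h m hm => by
    cases m with
    | zero => exact b0 t t'
    | succ m => exact a5 a Y t t' m (h m hm)
  have ql : ∀ t t' n, (∀ m < n, t m = t' m) →
      jn (BB t n) (Θ r (act a Y t) n) = jn (BB t' n) (Θ r (act a Y t') n) := fun t t' n e => by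
    obtain ⟨N, _, hN⟩ := Pa.exists_model (W.max _ (ok r (act a Y t))).1
    obtain ⟨N', _, hN'⟩ := Pa.exists_model (W.max _ (ok r (act a Y t'))).1
    have k := (W.down _ (ok _ _) N hN n _).2 rfl
    rw [show mkB C W r (act a Y t) 0 = mkB C W r (act a Y t') 0 from b0 t t',
      W.loc _ (mkB C W r (act a Y t')) n (bl t t' n e)] at k
    rw [bl t t' n e n le_rfl, hΘ _ _ N hN, hΘ _ _ N' hN', (W.down _ (ok _ _) N' hN' n _).1 k]
  let Hn : ℕ → (ℕ → CS) → Set CS := fun n x =>
    {y | ∀ A ∈ {A | LeT A (Zn (Q r a Y x) n)}, ∀ z, Gen A z (cat z (xr (rt (C.lv Y n)) y))}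
  have rH : ∀ n x, Hn n x ∈ residual CS := fun n x =>
    (eventually_countable_ball (countable_leT _)).2 fun A _ =>
      eventually_countable_forall.2 fun z => res_gen A _ z
  obtain ⟨x, hx, hH⟩ := seq_baire (ku2 hY)
    (fun n x => {z | lf z ≠ rt z ∧ ∀ b, sel b z ∈ Hn n x}) (fun n x => res_pair (rH n x))
    fun n x x' e => by
      have : Zn (Q r a Y x) n = Zn (Q r a Y x') n := zn_congr fun m hm j =>
        ql _ _ m fun k hk => by simp only [tsel, e k (hk.trans_le hm)]
      simp only [Hn, this]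
  have inQ : ∀ f m, LeT (jn (BB (tsel x f) m) (Θ r (act a Y (tsel x f)) m)) (Zn (Q r a Y x) m) :=
    fun f m => by
      obtain ⟨j, -, hj⟩ := exists_tb f m
      rw [ql _ (tsel x (tb j)) m fun k hk => by simp only [tsel, hj k hk] ]
      exact zn_col (Q r a Y x) m j
  have hE : Set.Countable {f : CS | ExcS (En (Zn (Q r a Y x)))
      fun k L => Θ r (act a Y (tsel x f)) k (Encodable.encode L) = true} := by
    unfold ExcS
    rw [Set.ofPred_exists]
    refine Set.countable_iUnion fun t => Set.Subsingleton.countable fun f hf f' hf' => ?_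
    obtain ⟨N, _, hN⟩ := Pa.exists_model (W.max _ (ok r (act a Y (tsel x f)))).1
    obtain ⟨N', _, hN'⟩ := Pa.exists_model (W.max _ (ok r (act a Y (tsel x f')))).1
    have e0 : W.th (BB (tsel x f)) = W.th (BB (tsel x f')) := by
      rw [Pa.eq_completeTheory (W.max _ (ok _ _)).1 hN, Pa.eq_completeTheory (W.max _ (ok _ _)).1 hN']
      refine Pa.nf fun k => funext fun n => ?_
      have := (hf k (decL n)).trans (hf' k (decL n)).symm
      beta_reduce at this
      rw [hΘ _ _ N hN, hΘ _ _ N' hN', TK_iff, TK_iff] at this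
      unfold TK
      rw [propext this]
    funext n
    have e := congrArg rt (congrFun (W.inj _ _ (ok _ _) (ok _ _) e0) (n + 1))
    have e1 : xr (rt (C.lv Y n)) (tsel x f n) = xr (rt (C.lv Y n)) (tsel x f' n) :=
      (a6 a Y _ n).symm.trans (e.trans (a6 a Y _ n))
    have e2 : sel (f n) (x n) = sel (f' n) (x n) := funext fun d => by
      simpa [xr, tsel] using congrFun e1 d
    have e3 := (hH n).1
    revert e2
    cases f n <;> cases f' n <;> simp [sel, e3, e3.symm]
  obtain ⟨f, hf, hf'⟩ := (dense_of_mem_residual (inter_mem hx (res_countable hE))).nonempty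
  refine ⟨_, hf, ?_⟩
  show Wit (mkB C W r (upk (pk (φ (Y, x, f)))).1) (Θ r (upk (pk (φ (Y, x, f)))).1)
    (En (Zn (Q r a (h (a, upk (pk (φ (Y, x, f))))) (upk (pk (φ (Y, x, f)))).2.1)))
  rw [upk_pk, show h (a, φ (Y, x, f)) = Y from a2 _ _ _]
  refine ⟨fun k z => ?_, fun k => mem_En.2 ⟨k, LeT.trans ?_ (inQ f k)⟩, hf'⟩
  · obtain ⟨n, hn⟩ := mem_En.1 (⟨k, rfl⟩ : En (Zn (Q r a Y x)) k ∈ Set.range _)
    have e : rt (BB (tsel x f) (n + 1)) = xr (rt (C.lv Y n)) (tsel x f n) := a6 a Y _ n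
    refine ⟨n, (idl_En (zn_mono _)).cat _ _ (mem_En.2 ⟨n + 1, LeT.trans (LeT.trans
      ((CM.id (α := Unit)).rt.leT _ ()) (finA_lf _ _)) (inQ f (n + 1))⟩), ?_⟩
    show Gen _ z (cat z (rt (BB (tsel x f) (n + 1))))
    rw [e]
    exact (hH n).2 (f n) _ hn z
  · simpa using (CM.id (α := Unit)).rt.leT
      (jn (BB (tsel x f) k) (Θ r (act a Y (tsel x f)) k)) ()

end Pool.Agent.MinDeg
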