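import Pool.Agent.P.MP_f8f34d_lc.C.Pool
import Pool.Agent.P.MP_f8f34d_lc.N.YesP

/-! Forcing over the pool, the truth lemma and the criterion for a minimal element. -/

namespace Pool.Agent.MinDeg

open FirstOrder FirstOrder.Language Pool.Agent.Lib.ComputableProp Filter

/-- the union of the members of the pool that miss `P` -/
def Opp (R : ℕ → CS) (P : Set Cd) : Set Cd :=
  {d | ∃ t, Pers (Set.range R) (fn R t 0) ∧ d ∈ fn R t 0 ∧ ∀ c ∈ fn R t 0, c ∉ P}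

/-- the forcing sets -/
def Fs (R : ℕ → CS) : ℕ → ℕ → (ℕ → ℕ) → Bool → Set Cd
  | 0, c, v, b => fn R (.bit (gA c (v 0) (v 1) (v 2)) b) 0
  | k + 1, c, v, b => if c % 2 = 0 then Fs R k (c / 2) v b else
      let P : Set Cd := {d | ∃ w : ℕ → ℕ, (∀ i < (blk (c / 2)).1, w i = v i) ∧
        IsC (Set.range R) d ∧ ∀ l ∈ (blk (c / 2)).2, d ∈ Fs R k l.2.1 (ren w l.2.2) l.1}
      cond b P (Opp R P)

def Ws (R : ℕ → CS) (k c : ℕ) (w : ℕ → ℕ) : Set Cd :=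
  {d | IsC (Set.range R) d ∧ ∀ l ∈ (blk (c / 2)).2, d ∈ Fs R k l.2.1 (ren w l.2.2) l.1}

/-- the theory is read off one name -/
def ExcS (R : ℕ → CS) (θ : ℕ → List Lt → Prop) : Prop :=
  ∃ t, ∀ k L, θ k L ↔ ∃ c ∈ fn R t 0, c ∈ Fs R (k + 1) (exC 0 L) (fun _ => 0) true

variable {R : ℕ → CS}

theorem fs_even (R : ℕ → CS) (k : ℕ) {c : ℕ} (h : c % 2 = 0) (v : ℕ → ℕ) (b : Bool) :
    Fs R (k + 1) c v b = Fs R k (c / 2) v b := by
  rw [Fs, if_pos h]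

theorem fs_true (R : ℕ → CS) (k : ℕ) {c : ℕ} (h : ¬ c % 2 = 0) (v : ℕ → ℕ) :
    Fs R (k + 1) c v true =
      {d | ∃ w : ℕ → ℕ, (∀ i < (blk (c / 2)).1, w i = v i) ∧ d ∈ Ws R k c w} := by
  rw [Fs, if_neg h]
  rfl

theorem fs_false (R : ℕ → CS) (k : ℕ) {c : ℕ} (h : ¬ c % 2 = 0) (v : ℕ → ℕ) :
    Fs R (k + 1) c v false = Opp R (Fs R (k + 1) c v true) := by
  rw [Fs, Fs, if_neg h, if_neg h]
  rfl

theorem upl_opp (P : Set Cd) : UPl R (Opp R P) := by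
  rintro d ⟨t, h1, h2, h3⟩
  exact ⟨t, h1, h2, fun c hc => ⟨t, h1, hc, h3⟩⟩

theorem upl_list {ι : Type} (hJ : Idl (Set.range R)) (l : List ι) (F : ι → Set Cd)
    (h : ∀ x ∈ l, UPl R (F x)) : UPl R {c | IsC (Set.range R) c ∧ ∀ x ∈ l, c ∈ F x} := by
  induction l with
  | nil => exact fun c hc => ⟨.all, pers_univ hJ, hc.1, fun d hd => ⟨hd, by simp⟩⟩
  | cons a l ih =>
    intro c hc
    obtain ⟨t, h1, h2, h3⟩ := h a (by simp) c (hc.2 a (by simp))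
    obtain ⟨u, k1, k2, k3⟩ := ih (fun x hx => h x (by simp [hx])) c
      ⟨hc.1, fun x hx => hc.2 x (by simp [hx])⟩
    refine ⟨.cap t u, h1.inter hJ k1, ⟨h2, k2⟩, fun d hd => ⟨(k3 hd.2).1, fun x hx => ?_⟩⟩
    rcases List.mem_cons.1 hx with rfl | hx
    exacts [h3 hd.1, (k3 hd.2).2 x hx]

theorem pers_bit (hJ : Idl (Set.range R)) (n : ℕ) (b : Bool) :
    Pers (Set.range R) (fn R (.bit n b) 0) :=
  ⟨fun _ hd => hd.1, fun _ hd _ hQ hs => ⟨hQ, fun y hy => hd.2 y (hs hy)⟩,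
    fun _ hd ζ V hF => ⟨ζ, V, ⟨hF, fun _ hB => ⟨hB, subset_rfl⟩⟩, fun B hB hζ =>
      ⟨hF.isC hJ hd.1 hB hζ, fun y hy => hd.2 y ((hF.2 B hζ).2 hy)⟩⟩⟩

theorem upl_Fs (hJ : Idl (Set.range R)) (k c : ℕ) (v : ℕ → ℕ) (b : Bool) :
    UPl R (Fs R k c v b) := by
  induction k generalizing c v b with
  | zero => exact fun d hd => ⟨_, pers_bit hJ _ _, hd, subset_rfl⟩
  | succ k ih =>
    by_cases h : c % 2 = 0
    · rw [fs_even R k h]
      exact ih _ _ _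
    cases b
    · rw [fs_false R k h]
      exact upl_opp _
    · rw [fs_true R k h]
      rintro d ⟨w, h1, h2⟩
      obtain ⟨t, k1, k2, k3⟩ := upl_list hJ _ _ (fun l _ => ih l.2.1 (ren w l.2.2) l.1) d h2
      exact ⟨t, k1, k2, fun e he => ⟨w, h1, k3 he⟩⟩

/-- the goal that decides the code `c` of level `k` at `v` -/
def Gs (R : ℕ → CS) : ℕ → ℕ → (ℕ → ℕ) → Set (Set Cd)
  | 0, c, v => {D | ∃ b, D = Fs R 0 c v b}
  | k + 1, c, v => if c % 2 = 0 then {fn R .all 0} else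
      {D | D = Fs R (k + 1) c v false ∨
        ∃ w : ℕ → ℕ, (∀ i < (blk (c / 2)).1, w i = v i) ∧ D = Ws R k c w}

theorem gs_goal (hJ : Idl (Set.range R)) (k c : ℕ) (v : ℕ → ℕ) : GoalS R (Gs R k c v) := by
  cases k with
  | zero =>
    refine ⟨by rintro _ ⟨b, rfl⟩; exact upl_Fs hJ _ _ _ _, ?_⟩
    rintro t ht ⟨⟨A, Q⟩, hd⟩
    obtain ⟨hA, ⟨y, hy⟩, i, hi⟩ := ht.isC _ hd
    obtain ⟨s, -, hs⟩ := Pii.index (P := fun z (a : ℕ × ℕ × Bool) =>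
      z ∈ K a.1 ∧ rt z a.2.1 = a.2.2) ((pii_K CM.id (by fun_prop)).and
        (Pii.bit CM.id.rt (by fun_prop) (by fun_prop)))
    have h2 : IsC (Set.range R)
        (A, Q ∩ {z | z (gA c (v 0) (v 1) (v 2)) = y (gA c (v 0) (v 1) (v 2))}) :=
      ⟨hA, ⟨y, hy, rfl⟩, s (i, gA c (v 0) (v 1) (v 2), y (gA c (v 0) (v 1) (v 2))), fun z => by
        rw [hs, rt_jn]
        exact and_congr_left' (hi z)⟩
    exact ⟨_, ⟨_, rfl⟩, _, ht.sub _ hd _ h2 Set.inter_subset_left, h2, fun z hz => hz.2⟩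
  | succ k =>
    rw [Gs]
    split_ifs with h
    · refine ⟨?_, fun t ht ⟨d, hd⟩ => ⟨_, rfl, d, hd, ht.isC d hd⟩⟩
      rintro _ rfl
      exact fun d hd => ⟨.all, pers_univ hJ, hd, subset_rfl⟩
    refine ⟨?_, fun t ht ⟨d, hd⟩ => ?_⟩
    · rintro _ (rfl | ⟨w, -, rfl⟩)
      · exact upl_Fs hJ _ _ _ _
      · exact upl_list hJ _ _ fun l _ => upl_Fs hJ _ _ _ _
    by_cases hr : ∃ e ∈ fn R t 0, e ∈ Fs R (k + 1) c v true
    · obtain ⟨e, h1, h2⟩ := hr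
      rw [fs_true R k h] at h2
      obtain ⟨w, h2, h3⟩ := h2
      exact ⟨_, Or.inr ⟨w, h2, rfl⟩, e, h1, h3⟩
    · refine ⟨_, Or.inl rfl, d, hd, ?_⟩
      rw [fs_false R k h]
      exact ⟨t, ht, hd, fun e h1 h2 => hr ⟨e, h1, h2⟩⟩

/-- the truth lemma -/
theorem truthS {y : CS} {q : ℕ → Cd} (hq : ∀ p, IsC (Set.range R) (q p))
    (hy : ∀ p, y ∈ (q p).2)
    (hg : ∀ k c (l : List ℕ) d, ∃ D ∈ Gs R k c (fun i => l.getD i d),
      ∀ᶠ p in atTop, q p ∈ D) (k c : ℕ) (l : List ℕ) (d : ℕ) :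
    (∀ b, (∀ᶠ p in atTop, q p ∈ Fs R k c (fun i => l.getD i d) b) →
      (sat (PreD y) k c (fun i => l.getD i d) ↔ b = true)) ∧
    ∃ b, ∀ᶠ p in atTop, q p ∈ Fs R k c (fun i => l.getD i d) b := by
  induction k generalizing c l d with
  | zero =>
    refine ⟨fun b hb => ?_, ?_⟩
    · obtain ⟨p, hp⟩ := hb.exists
      rw [sat_zero, PreD, hp.2 y (hy p)]
    · obtain ⟨_, ⟨b, rfl⟩, hb⟩ := hg 0 c l d
      exact ⟨b, hb⟩
  | succ k ih =>
    by_cases h : c % 2 = 0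
    · simp only [fs_even R k h, sat_even _ h]
      exact ih _ _ _
    have ih' : ∀ (w : ℕ → ℕ) (x : Lt),
        (∀ b, (∀ᶠ p in atTop, q p ∈ Fs R k x.2.1 (ren w x.2.2) b) →
          (sat (PreD y) k x.2.1 (ren w x.2.2) ↔ b = true)) ∧
        ∃ b, ∀ᶠ p in atTop, q p ∈ Fs R k x.2.1 (ren w x.2.2) b := fun w x => by
      rw [truth_ren]
      exact ih _ _ _
    have dis : (∀ᶠ p in atTop, q p ∈ Fs R (k + 1) c (fun i => l.getD i d) true) →
        ¬ ∀ᶠ p in atTop, q p ∈ Fs R (k + 1) c (fun i => l.getD i d) false := fun h1 h2 => by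
      obtain ⟨p, k1, k2⟩ := (h1.and h2).exists
      rw [fs_false R k h] at k2
      obtain ⟨t, -, k3, k4⟩ := k2
      exact k4 _ k3 k1
    have sub : ∀ w : ℕ → ℕ, (∀ i < (blk (c / 2)).1, w i = l.getD i d) →
        Ws R k c w ⊆ Fs R (k + 1) c (fun i => l.getD i d) true := fun w hw => by
      rw [fs_true R k h]
      exact fun e he => ⟨w, hw, he⟩
    obtain ⟨D, hD, hK⟩ := hg (k + 1) c l d
    rw [Gs, if_neg h] at hD
    rw [sat_odd _ (by omega)]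
    rcases hD with rfl | ⟨w, hw, rfl⟩
    · refine ⟨fun b hb => ?_, false, hK⟩
      cases b
      · refine iff_of_false ?_ (by simp)
        rintro ⟨w, hw, hH⟩
        refine dis (Eventually.mono ?_ fun p hp => sub w hw ⟨hq p, hp⟩) hK
        refine (Filter.eventually_all_finite (List.finite_toSet _)).2 fun x hx => ?_
        obtain ⟨k1, b, k2⟩ := ih' w x
        obtain rfl : b = x.1 := Bool.eq_iff_iff.2 ((k1 b k2).symm.trans (hH x hx))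
        exact k2
      · exact absurd hK (dis hb)
    · have h1 := hK.mono fun p hp => sub w hw hp
      refine ⟨fun b hb => ?_, true, h1⟩
      cases b
      · exact absurd hb (dis h1)
      · exact iff_of_true ⟨w, hw, fun x hx => (ih' w x).1 _ (hK.mono fun p hp => hp.2 x hx)⟩ rfl

theorem goalsS (hJ : Idl (Set.range R)) (θ : ℕ → List Lt → Prop) (hθ : ¬ ExcS R θ) :
    ∃ goal : ℕ → Set (Set Cd), (∀ g, GoalS R (goal g)) ∧
      ∀ (y : CS) (c : ℕ → Cd), (∀ p, IsC (Set.range R) (c p)) → (∀ p, y ∈ (c p).2) →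
        (∀ g, ∃ D ∈ goal g, ∀ᶠ p in atTop, c p ∈ D) → ∃ k L, ¬ (th (PreD y) k L ↔ θ k L) := by
  obtain ⟨e, he⟩ := exists_surjective_nat (Option (ℕ × ℕ × List ℕ × ℕ))
  obtain ⟨G, G0, G1⟩ : ∃ G : Option (ℕ × ℕ × List ℕ × ℕ) → Set (Set Cd),
      G none = {D | ∃ k L b, ¬ (b = true ↔ θ k L) ∧ D = Fs R (k + 1) (exC 0 L) (fun _ => 0) b} ∧
      ∀ k c l d, G (some (k, c, l, d)) = Gs R k c fun i => l.getD i d :=
    ⟨fun o => o.elim _ fun t => Gs R t.1 t.2.1 fun i => t.2.2.1.getD i t.2.2.2, rfl,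
      fun _ _ _ _ => rfl⟩
  refine ⟨fun g => G (e g), fun g => ?_, fun y q hq hy hg => ?_⟩
  · beta_reduce
    rcases e g with _ | ⟨k, c, l, d⟩
    · rw [G0]
      refine ⟨?_, fun t ht ⟨d, hd⟩ => ?_⟩
      · rintro _ ⟨k, L, b, -, rfl⟩
        exact upl_Fs hJ _ _ _ _
      obtain ⟨k, L, h⟩ : ∃ k L, ¬ (θ k L ↔
          ∃ c ∈ fn R t 0, c ∈ Fs R (k + 1) (exC 0 L) (fun _ => 0) true) := by
        by_contra hc
        exact hθ ⟨t, fun k L => by_contra fun h' => hc ⟨k, L, h'⟩⟩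
      by_cases hr : ∃ c ∈ fn R t 0, c ∈ Fs R (k + 1) (exC 0 L) (fun _ => 0) true
      · exact ⟨_, ⟨k, L, true, fun h' => h (iff_of_true (h'.1 rfl) hr), rfl⟩, hr⟩
      · refine ⟨_, ⟨k, L, false, fun h' => h (iff_of_false (fun h2 =>
          Bool.false_ne_true (h'.2 h2)) hr), rfl⟩, d, hd, ?_⟩
        rw [fs_false R k (by unfold exC; omega)]
        exact ⟨t, ht, hd, fun e h1 h2 => hr ⟨e, h1, h2⟩⟩
    · rw [G1]
      exact gs_goal hJ _ _ _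
  · have hg' : ∀ o, ∃ D ∈ G o, ∀ᶠ p in atTop, q p ∈ D := fun o => by
      obtain ⟨g, rfl⟩ := he o
      exact hg g
    obtain ⟨D, hD, hK⟩ := hg' none
    rw [G0] at hD
    obtain ⟨k, L, b, hb, rfl⟩ := hD
    have h1 := (truthS hq hy (fun k c l d => G1 k c l d ▸ hg' _) (k + 1) (exC 0 L) [] 0).1 b hK
    rw [sat_exC] at h1
    refine ⟨k, L, fun h => hb (h1.symm.trans (Iff.trans ?_ h))⟩
    exact exists_congr fun w => and_iff_right fun i hi => absurd hi (Nat.not_lt_zero i)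

/-- the criterion with a Borel exception -/
theorem yes_sharp (sol : SolovayStmt) (hJ : Idl (Set.range R)) {T : LA.Theory}
    (hT : T.IsMaximal) (hPA : PA ⊆ T) (hTA : T ≠ TA) (N : Type) [LA.Structure N] (hN : N ⊨ T)
    (hK : ∀ k, TK (PreLA N) k ∈ Set.range R) (hG : HG (Set.range R) {G | Lst T G})
    (hx : ¬ ExcS R (th (PreLA N))) : Yes T := by
  obtain ⟨θ, hθ⟩ := n_scott
  obtain ⟨goal, hg, hgoal⟩ := goalsS hJ (th (PreLA N)) hx
  obtain ⟨X, hX, ⟨S, h1, h2, h3⟩, hmin, hcap⟩ := constructS θ rfl hJ hG (TK (PreLA N)) hK goal hg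
  have := Pa.infinite_of_model (hN.mono hPA)
  obtain ⟨M, hM, hMX⟩ := model_of_records sol N hX h1 h2 h3
  have hMT : @Theory.Model LA ℕ M T := @Pa.model_of_TK T N _ hT hN ℕ M hM
  refine ⟨deg M, ⟨M, hMT, rfl⟩, ?_⟩
  rintro _ ⟨B, hB, rfl⟩ hlt
  rw [deg_eq, deg_eq] at hlt
  have hBM : LeT (dg B) (dg M) := LeT.of_turing hlt.le
  obtain ⟨e, he, hag⟩ := (hBM.trans hMX).exists_fun
  rcases hmin e _ he hag with ⟨A, hA, hle⟩ | ⟨c, k1, k2, k3⟩
  · have hAB : LeT A (dg B) := hcap e _ he hag (yesp_md hθ hT hPA hTA B hB) A hA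
    exact hlt.not_ge (show TuringReducible (hat (dg M)) (hat (dg B)) from
      (hMX.trans (hle.trans (hAB.jn (LeT.refl _)))).turing)
  · obtain ⟨k, L, h⟩ := hgoal _ c k1 k2 k3
    apply h
    rw [preD_dg, ← TK_iff, ← TK_iff, @Pa.TK_eq T ℕ B hT hPA hB N _ hN k]

end Pool.Agent.MinDeg
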