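import Pool.Agent.P.MP_f8f34d_lc.C.Run
import Pool.Agent.P.MP_f8f34d_lc.C.Tru

/-! The exception is Borel in the enumeration. -/

namespace Pool.Agent.MinDeg

open Pool.Agent.Lib.ComputableProp

def Kl (i : ℕ) (A : CS) : Set CS := {y | jn A y ∈ K i}

def Vx (v : ℕ) (A : CS) : CS → Set CS := fun B => {y | jn A (jn B y) ∈ K v}

/-- membership is Borel in the enumeration and the level -/
def MS (D : (ℕ → CS) → Set Cd) : Prop :=
  ∀ i, Measurable fun p : (ℕ → CS) × CS => (p.2, Kl i p.2) ∈ D p.1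

theorem MS.app {α : Type} [MeasurableSpace α] {D : (ℕ → CS) → Set Cd} (h : MS D)
    {R : α → ℕ → CS} {A : α → CS} (hR : Measurable R) (hA : Measurable A) (i : ℕ) :
    Measurable fun a => (A a, Kl i (A a)) ∈ D (R a) := (h i).comp (hR.prodMk hA)

theorem isC_kl {R : ℕ → CS} {c : Cd} (h : IsC (Set.range R) c) :
    ∃ u i, c = (R u, Kl i (R u)) := by
  obtain ⟨A, Q⟩ := c
  obtain ⟨⟨u, rfl⟩, -, i, hi⟩ := h
  exact ⟨u, i, Prod.ext rfl (Set.ext hi)⟩

theorem all_mem {R : ℕ → CS} {D : Set Cd} (h : ∀ c ∈ D, IsC (Set.range R) c) {φ : Cd → Prop} :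
    (∀ c ∈ D, φ c) ↔ ∀ u i, (R u, Kl i (R u)) ∈ D → φ (R u, Kl i (R u)) :=
  ⟨fun H _ _ k => H _ k, fun H c k => by
    obtain ⟨u, i, rfl⟩ := isC_kl (h c k)
    exact H u i k⟩

theorem pii_Kl (i : ℕ) : Pii fun z (_ : Unit) => rt z ∈ Kl i (lf z) :=
  pii_K (CM.id.lf.jn CM.id.rt) (Computable.const i)

theorem kl_ne (i : ℕ) : Measurable fun A => (Kl i A).Nonempty :=
  (Pii.exC (P := fun A y (_ : Unit) => y ∈ Kl i A) (pii_Kl i)).meas ()

theorem kl_sub (i j : ℕ) : Measurable fun A => Kl i A ⊆ Kl j A :=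
  meas_sub (P := fun A y (_ : Unit) => y ∈ Kl i A) (Q := fun A y (_ : Unit) => y ∈ Kl j A)
    (pii_Kl i) (pii_Kl j) ()

theorem img_kl (e : ℕ) (s : St) : ∃ j, ∀ A, Img e (PS s A) = Kl j A := by
  have h1 : Pii (fun z (_ : Unit) => ∃ X, X ∈ UU s.mu s.ix (lf z) ∧ Ag e X (rt z)) :=
    Pii.exC (P := fun z X (_ : Unit) => X ∈ UU s.mu s.ix (lf z) ∧ Ag e X (rt z))
      ((pii_UU CM.id.rt CM.id.lf.lf (Computable.const _) (Computable.const _)).and
        (pii_Ag CM.id.rt CM.id.lf.rt (Computable.const e)))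
  obtain ⟨t, -, ht⟩ := h1.index
  refine ⟨t (), fun A => Set.ext fun y => ?_⟩
  show _ ↔ jn A y ∈ K (t ())
  rw [ht, lf_jn, rt_jn]
  rfl

theorem ms_isC : MS fun R => {c | IsC (Set.range R) c} := fun i => by
  have e : (fun p : (ℕ → CS) × CS => (p.2, Kl i p.2) ∈ {c | IsC (Set.range p.1) c}) =
      fun p => (∃ m, p.1 m = p.2) ∧ (Kl i p.2).Nonempty :=
    funext fun p => propext ⟨fun h => ⟨h.1, h.2.1⟩, fun h => ⟨h.1, h.2, i, fun _ => Iff.rfl⟩⟩
  rw [e]
  exact (Measurable.exists fun m => meas_eq ((measurable_pi_apply m).comp measurable_fst)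
    measurable_snd).and ((kl_ne i).comp measurable_snd)

theorem ms_fn : ∀ t e, MS fun R => fn R t e
  | .all, _ => ms_isC
  | .bit n b, _ => fun i => (ms_isC i).and ((meas_sub (P := fun A y (_ : Unit) => y ∈ Kl i A)
      (Q := fun _ y (_ : Unit) => y n = b) (pii_Kl i)
      (Pii.bit CM.id.rt (Computable.const n) (Computable.const b)) ()).comp measurable_snd)
  | .cap t u, e => fun i => (ms_fn t e i).and (ms_fn u e i)
  | .only e t, e' => by
    by_cases h : e' = e
    · simp only [fn, if_pos h]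
      exact ms_fn t 0
    · simp only [fn, if_neg h]
      exact ms_isC
  | .fam s u t, _ => fun i => by
    have hl : ∀ s', Measurable fun p : (ℕ → CS) × CS =>
        Leads s (p.1 u) s' p.2 ∧ (PS s' p.2).Nonempty := fun s' => (meas_leads s s').comp
      (f := fun p : (ℕ → CS) × CS => (p.1 u, p.2))
      (((measurable_pi_apply u).comp measurable_fst).prodMk measurable_snd)
    refine (ms_isC i).and (Measurable.exists fun s' => Measurable.and (hl s')
      (measurable_const.and (Measurable.and (Measurable.forall fun e => measurable_const.imp ?_) ?_)))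
    · obtain ⟨j, hj⟩ := img_kl e s'
      simp only [hj]
      exact ms_fn t e j
    · obtain ⟨j, hj⟩ := img_kl s.own s'
      simp only [hj]
      exact (kl_sub i j).comp measurable_snd

theorem Fam.vx {c : Cd} {ζ : List Bool} {V : CS → Set CS} (h : Fam c ζ V) : ∃ v, V = Vx v c.1 :=
  h.1.imp fun _ hv => funext fun B => Set.ext (hv B)

theorem vx_kl (v : ℕ) : ∃ j, ∀ A B, Vx v A B = Kl j (rs A B) := by
  obtain ⟨s, -, hs⟩ := (pii_K (α := Unit)
    (CM.id.lf.tl.jn ((CM.id.lf.col (Computable.const 0)).jn CM.id.rt)) (Computable.const v)).index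
  refine ⟨s (), fun A B => Set.ext fun y => ?_⟩
  show _ ↔ jn (rs A B) y ∈ K (s ())
  rw [hs]
  simp [Vx]

theorem pii_Vx (ζ : List Bool) (v : ℕ) :
    Pii fun z (_ : Unit) => Ext ζ (lf (rt z)) ∧ rt (rt z) ∈ Vx v (lf z) (lf (rt z)) :=
  (Pii.ext CM.id.rt.lf (Computable.const ζ)).and
    (pii_K (CM.id.lf.jn (CM.id.rt.lf.jn CM.id.rt.rt)) (Computable.const v))

theorem meas_fam (i v : ℕ) (ζ : List Bool) : Measurable fun A => Fam (A, Kl i A) ζ (Vx v A) := by
  have e : (fun A => Fam (A, Kl i A) ζ (Vx v A)) = fun A =>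
      (∀ B, Ext ζ B → ∃ y, y ∈ Vx v A B) ∧
        ∀ z, Ext ζ (lf z) ∧ rt z ∈ Vx v A (lf z) → rt z ∈ Kl i A := by
    funext A
    refine propext ⟨fun h => ⟨fun B hB => (h.2 B hB).1, fun z hz => (h.2 _ hz.1).2 hz.2⟩,
      fun h => ⟨⟨v, fun _ _ => Iff.rfl⟩, fun B hB => ⟨h.1 B hB, fun y hy => ?_⟩⟩⟩
    simpa using h.2 (jn B y) (by simpa using ⟨hB, hy⟩)
  rw [e]
  refine Measurable.and ((Pii.allC (P := fun A B (_ : Unit) => Ext ζ B → ∃ y, y ∈ Vx v A B)
    (Pii.imp (CM.id.rt.ext (Computable.const ζ))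
      (Pii.exC (P := fun z y (_ : Unit) => y ∈ Vx v (lf z) (rt z))
        (pii_K (CM.id.lf.lf.jn (CM.id.lf.rt.jn CM.id.rt)) (Computable.const v))))).meas ()) ?_
  exact meas_sub (P := fun A z (_ : Unit) => Ext ζ (lf z) ∧ rt z ∈ Vx v A (lf z))
    (Q := fun A z (_ : Unit) => rt z ∈ Kl i A) (pii_Vx ζ v)
    (pii_K (CM.id.lf.jn CM.id.rt.rt) (Computable.const i)) ()

theorem meas_rf (i v v' : ℕ) (ζ ζ' : List Bool) :
    Measurable fun A => Rf (A, Kl i A) ζ (Vx v A) ζ' (Vx v' A) := by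
  have e : (fun A => Rf (A, Kl i A) ζ (Vx v A) ζ' (Vx v' A)) = fun A =>
      Fam (A, Kl i A) ζ' (Vx v' A) ∧ (∀ B, Ext ζ' B → Ext ζ B) ∧
        ∀ z, Ext ζ' (lf z) ∧ rt z ∈ Vx v' A (lf z) → rt z ∈ Vx v A (lf z) := by
    funext A
    refine propext (and_congr_right fun _ => ⟨fun h => ⟨fun B hB => (h B hB).1,
      fun z hz => (h _ hz.1).2 hz.2⟩, fun h B hB => ⟨h.1 B hB, fun y hy => ?_⟩⟩)
    simpa using h.2 (jn B y) (by simpa using ⟨hB, hy⟩)
  rw [e]
  exact (meas_fam i v' ζ').and (measurable_const.and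
    (meas_sub (P := fun A z (_ : Unit) => Ext ζ' (lf z) ∧ rt z ∈ Vx v' A (lf z))
      (Q := fun A z (_ : Unit) => rt z ∈ Vx v A (lf z)) (pii_Vx ζ' v')
      (pii_K (CM.id.lf.jn (CM.id.rt.lf.jn CM.id.rt.rt)) (Computable.const v)) ()))

theorem meas_ext (ζ : List Bool) : Measurable fun B => Ext ζ B :=
  (Pii.ext (α := Unit) CM.id (Computable.const ζ)).meas ()

theorem meas_pers (t : Tm) : Measurable fun R => Pers (Set.range R) (fn R t 0) := by
  have e : (fun R => Pers (Set.range R) (fn R t 0)) = fun R =>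
      (∀ u i, (R u, Kl i (R u)) ∈ fn R t 0 → ∀ j, (R u, Kl j (R u)) ∈ {c | IsC (Set.range R) c} →
        Kl j (R u) ⊆ Kl i (R u) → (R u, Kl j (R u)) ∈ fn R t 0) ∧
      ∀ u i, (R u, Kl i (R u)) ∈ fn R t 0 → ∀ ζ v, Fam (R u, Kl i (R u)) ζ (Vx v (R u)) →
        ∃ ζ' v', Rf (R u, Kl i (R u)) ζ (Vx v (R u)) ζ' (Vx v' (R u)) ∧
          ∀ m, Ext ζ' (R m) → (rs (R u) (R m), Vx v' (R u) (R m)) ∈ fn R t 0 := by
    funext R
    refine propext ⟨fun h => ⟨fun u i k j => h.sub _ k _, fun u i k ζ v hF => ?_⟩, fun h =>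
      ⟨fn_isC R t 0, (all_mem (fn_isC R t 0)).2 fun u i k Q hQ hs => ?_,
        (all_mem (fn_isC R t 0)).2 fun u i k ζ V hF => ?_⟩⟩
    · obtain ⟨ζ', V', h1, h2⟩ := h.ref _ k ζ _ hF
      obtain ⟨v', rfl⟩ := h1.1.vx
      exact ⟨ζ', v', h1, fun m => h2 _ ⟨m, rfl⟩⟩
    · obtain ⟨j, hj⟩ := hQ.2.2
      obtain rfl : Q = Kl j (R u) := Set.ext hj
      exact h.1 u i k j hQ hs
    · obtain ⟨v, rfl⟩ := hF.vx
      obtain ⟨ζ', v', h1, h2⟩ := h.2 u i k ζ v hF
      exact ⟨ζ', _, h1, by rintro _ ⟨m, rfl⟩; exact h2 m⟩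
  rw [e]
  have hm : ∀ u i, Measurable fun R : ℕ → CS => (R u, Kl i (R u)) ∈ fn R t 0 := fun u i =>
    (ms_fn t 0).app measurable_id (measurable_pi_apply u) i
  refine Measurable.and (Measurable.forall fun u => Measurable.forall fun i => (hm u i).imp
    (Measurable.forall fun j => (ms_isC.app measurable_id (measurable_pi_apply u) j).imp
      (((kl_sub j i).comp (measurable_pi_apply u)).imp (hm u j))))
    (Measurable.forall fun u => Measurable.forall fun i => (hm u i).imp
      (Measurable.forall fun ζ => Measurable.forall fun v =>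
        ((meas_fam i v ζ).comp (measurable_pi_apply u)).imp
          (Measurable.exists fun ζ' => Measurable.exists fun v' =>
            ((meas_rf i v v' ζ ζ').comp (measurable_pi_apply u)).and
              (Measurable.forall fun m => ((meas_ext ζ').comp (measurable_pi_apply m)).imp ?_))))
  obtain ⟨j, hj⟩ := vx_kl v'
  simp only [hj]
  exact (ms_fn t 0).app measurable_id
    (measurable_rs (measurable_pi_apply u) (measurable_pi_apply m)) j

theorem meas_meet {P : (ℕ → CS) → Set Cd} (h : MS P) (t : Tm) :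
    Measurable fun R => ∀ c ∈ fn R t 0, c ∉ P R := by
  simp only [fun R => all_mem (fn_isC R t 0) (φ := fun c => c ∉ P R)]
  exact Measurable.forall fun u => Measurable.forall fun j =>
    ((ms_fn t 0).app measurable_id (measurable_pi_apply u) j).imp
      (h.app measurable_id (measurable_pi_apply u) j).not

theorem MS.opp {P : (ℕ → CS) → Set Cd} (h : MS P) : MS fun R => Opp R (P R) := fun i =>
  Measurable.exists fun t => ((meas_pers t).comp measurable_fst).and
    ((ms_fn t 0 i).and ((meas_meet h t).comp measurable_fst))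

theorem meas_ex_fac {α W C : Type} [MeasurableSpace α] [Countable C] (g : W → C)
    {P : W → α → Prop} (h : ∀ w, Measurable (P w)) (e : ∀ w w' a, g w = g w' → P w a → P w' a) :
    Measurable fun a => ∃ w, P w a := by
  have : (fun a => ∃ w, P w a) = fun a => ∃ c : Set.range g, P c.2.choose a :=
    funext fun a => propext ⟨fun ⟨w, hw⟩ => ⟨⟨g w, w, rfl⟩, e _ _ a
      (Exists.choose_spec (⟨w, rfl⟩ : g w ∈ Set.range g)).symm hw⟩, fun ⟨_, hc⟩ => ⟨_, hc⟩⟩
  rw [this]
  exact Measurable.exists fun c => h _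

theorem ms_Fs (k c : ℕ) (v : ℕ → ℕ) (b : Bool) : MS fun R => Fs R k c v b := by
  induction k generalizing c v b with
  | zero => exact ms_fn _ 0
  | succ k ih =>
    by_cases h : c % 2 = 0
    · simp only [fun R => fs_even R k h]
      exact ih _ _ _
    have h1 : MS fun R => Fs R (k + 1) c v true := fun i => by
      classical
      simp only [fun R => fs_true R k h]
      refine meas_ex_fac (fun w : ℕ → ℕ => (decide (∀ i < (blk (c / 2)).1, w i = v i),
        (blk (c / 2)).2.map fun l => l.2.2.map w, w 0)) (fun w => measurable_const.and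
          ((ms_isC i).and (Measurable.forall fun l => measurable_const.imp (ih _ _ _ i)))) ?_
      rintro w w' p e ⟨k1, k2, k3⟩
      simp only [Prod.mk.injEq, List.map_inj_left, decide_eq_decide] at e
      refine ⟨e.1.1 k1, k2, fun l hl => ?_⟩
      have : ren w' l.2.2 = ren w l.2.2 := by
        rw [truth_ren, truth_ren, e.2.2, List.map_inj_left.2 (e.2.1 l hl)]
      rw [this]
      exact k3 l hl
    cases b
    · simp only [fun R => fs_false R k h]
      exact h1.opp
    · exact h1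

theorem meas_exc : Measurable fun p : (ℕ → CS) × (ℕ → CS) =>
    ExcS p.1 fun k L => p.2 k (Encodable.encode L) = true := by
  refine Measurable.exists fun t => Measurable.forall fun k => Measurable.forall fun L =>
    Measurable.iff ((measurable_of_countable fun b : Bool => b = true).comp
      ((measurable_pi_apply _).comp ((measurable_pi_apply k).comp measurable_snd))) ?_
  have := ((meas_meet (ms_Fs (k + 1) (exC 0 L) (fun _ => 0) true) t).comp
    (measurable_fst (β := ℕ → CS))).not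
  simpa only [Function.comp_def, not_forall, not_not, exists_prop] using this

theorem meas_gen (z : List Bool) : Measurable fun p : CS × CS => Gen p.1 z p.2 :=
  Measurable.forall fun a => ((meas_K a).comp (measurable_jn measurable_fst measurable_snd)).imp
    (Measurable.exists fun z1 => measurable_const.and
      (((Pii.allC (P := fun A B (_ : Unit) => Ext z1 B → jn A B ∈ K a)
        (Pii.imp (CM.id.rt.ext (Computable.const z1))
          (pii_K (CM.id.lf.jn CM.id.rt) (Computable.const a)))).meas ()).comp measurable_fst))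

end Pool.Agent.MinDeg
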