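import Pool.Agent.P.MP_f8f34d_lc.N.ConsP

/-! A countable pool of persistent sets and the construction over it. -/

namespace Pool.Agent.MinDeg

open Pool.Agent.Lib.ComputableProp Filter

/-- the conditions below an image of the owner at a later state of the same owner phase -/
def FamS (J : Set CS) (s0 : St) (A0 : CS) (D : ℕ → Set Cd) : Set Cd :=
  {c | IsC J c ∧ ∃ s : St, (Leads s0 A0 s c.1 ∧ (PS s c.1).Nonempty) ∧
    (K s.ix ⊆ PP ∧ s.mode = 1 ∧ s.ph = s0.ph ∧ s.rcd = s0.rcd ∧ s.act = s0.act) ∧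
    (∀ e ∈ s.act, (c.1, Img e (PS s c.1)) ∈ D e) ∧ c.2 ⊆ Img s0.own (PS s c.1)}

/-- an abort in the same owner phase -/
def Exit (J : Set CS) (s0 : St) (A0 : CS) (D : ℕ → Set Cd) : Prop :=
  ∃ (s : St) (A : CS), Cont J s0 A0 s A ∧ Inv J s A D ∧ s.mode = 1 ∧ s.ph = s0.ph ∧
    s.rcd = s0.rcd ∧ s.act.length < s0.act.length

section
variable {J : Set CS} {s0 : St} {A0 : CS} {D : ℕ → Set Cd}

theorem famS_state (h : Inv J s0 A0 D) {c : Cd} (hc : c ∈ FamS J s0 A0 D) :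
    ∃ s : St, Cont J s0 A0 s c.1 ∧ Inv J s c.1 D ∧ s.mode = 1 ∧ s.ph = s0.ph ∧ s.rcd = s0.rcd ∧
      s.act = s0.act ∧ s.own = s0.own ∧ c.2 ⊆ Img s.own (PS s c.1) := by
  obtain ⟨h0, s, ⟨h1, h2⟩, ⟨h3, h4, h5, h6, h7⟩, h8, h9⟩ := hc
  have e : s.own = s0.own := by unfold St.own; rw [h5]
  exact ⟨s, ⟨h1, fun e he => h7 ▸ he, fun e he he' => absurd (h7 ▸ he) he'⟩,
    ⟨h3, h0.1, h2, fun e he X hX => h.tot e (h7 ▸ he) X (h1.1 hX), h.pers, h8⟩, h4, h5, h6, h7, e,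
    e ▸ h9⟩

theorem famS_pers (hJ : Idl J) (h : Inv J s0 A0 D) (ho : s0.own ∈ s0.act)
    (hx : ¬ Exit J s0 A0 D) : Pers J (FamS J s0 A0 D) := by
  refine ⟨fun c hc => hc.1, fun c hc Q hQ hs => ?_, ?_⟩
  · obtain ⟨-, s, h1, h2, h3, h4⟩ := hc
    exact ⟨hQ, s, h1, h2, h3, hs.trans h4⟩
  rintro ⟨A, Q⟩ hc ζ V hV
  obtain ⟨s, c0, i0, hm, hp, hr, ha, eo, hQ⟩ := famS_state h hc
  dsimp only at c0 i0 hQ
  rcases owner_send i0 hm (by rw [eo, ha]; exact ho) 0 (game_fam_up hQ hV) with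
    ⟨s', k1, k2, k3, k4, k5, k6⟩ | ⟨s1, ζ1, k1, k2, k3, k4, k5, k6, k7, k8, k9⟩
  · exact absurd ⟨s', A, c0.trans k1, k2, k3, k4.trans hp, k5.trans hr, ha ▸ k6⟩ hx
  have k3' : s1.mode = 3 := k3
  have har : Arena J s1 A D ζ1 := ⟨fun e => by omega, k8, fun e he => by rwa [k6, ← k7],
    fun e he he' => absurd (by rwa [k7, ← k6]) he'⟩
  obtain ⟨s2, l1, l2, l3, l4, ⟨l5, l6⟩ | ⟨l5, l6, l7, l8, l9, ζ2, -, l10⟩⟩ :=
    loop hJ k2 har (by omega)
  · exact absurd ⟨s2, A, (c0.trans k1).trans l1, l2, by omega, (l3.trans k4).trans hp,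
      (l4.trans k5).trans hr, by rw [← ha, ← k6]; exact l6⟩ hx
  have hsub : ∀ B, Fib s2 A B ⊆ Fib s1 A B := fun B X hX =>
    ⟨l1.leads.1 hX.1, by rw [← l8]; exact hX.2⟩
  have hrf : Rf (A, Q) ζ V ζ2 (fun B => Img s.own (Fib s2 A B)) := by
    refine ⟨fam_img _ ?_ l10.full, fun B hB => ?_⟩
    · rintro y ⟨X, hX, hy⟩
      obtain ⟨m1, m2⟩ := k9 _ X ⟨l1.leads.1 hX, rfl⟩
      exact (hV.2 _ m1).2 (m2 y hy)
    · obtain ⟨X, hX⟩ := l10.full B hB
      refine ⟨(k9 B X (hsub B hX)).1, ?_⟩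
      rintro y ⟨X', hX', hy⟩
      exact (k9 B X' (hsub B hX')).2 y hy
  refine ⟨ζ2, _, hrf, fun B hB hζ => ?_⟩
  obtain ⟨m1, m2⟩ := raise_step hJ l2 l10 (by omega) l6 hB hζ
  have e3 : s2.mode = 3 := by omega
  have e : nxR s2 = ((1, s2.1.2), (s2.key :: s2.mu, s2.2.2)) := by simp [nxR, e3, eqb]
  refine ⟨hrf.1.isC hJ hc.1 hB hζ, nxR s2, ⟨(((c0.trans k1).trans l1).trans m1).leads, m2.ne⟩,
    ⟨m2.pp, by rw [e], by rw [e]; exact (l3.trans k4).trans hp,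
      by rw [e]; exact (l4.trans k5).trans hr, by rw [e]; exact (l7.trans k6).trans ha⟩,
    m2.keep, ?_⟩
  dsimp only
  rw [ps_nxR, eo]

end

/-- names of members of the pool -/
inductive Tm : Type
  | all : Tm
  | bit : ℕ → Bool → Tm
  | cap : Tm → Tm → Tm
  | only : ℕ → Tm → Tm
  | fam : St → ℕ → Tm → Tm

def Tm.enc : Tm → ℕ
  | .all => Nat.pair 0 0
  | .bit n b => Nat.pair 1 (Encodable.encode (n, b))
  | .cap t u => Nat.pair 2 (Nat.pair t.enc u.enc)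
  | .only e t => Nat.pair 3 (Nat.pair e t.enc)
  | .fam s u t => Nat.pair 4 (Nat.pair (Encodable.encode (s, u)) t.enc)

theorem Tm.enc_inj : ∀ t u : Tm, t.enc = u.enc → t = u := by
  intro t
  induction t with
  | all => intro u h; cases u <;> simp_all [Tm.enc]
  | bit n b => intro u h; cases u <;> simp_all [Tm.enc]
  | cap t1 t2 i1 i2 =>
    intro u h
    cases u <;> simp only [Tm.enc, Nat.pair_eq_pair] at h <;> try omega
    rw [i1 _ h.2.1, i2 _ h.2.2]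
  | only e t i =>
    intro u h
    cases u <;> simp only [Tm.enc, Nat.pair_eq_pair] at h <;> try omega
    rw [h.2.1, i _ h.2.2]
  | fam s v t i =>
    intro u h
    cases u <;> simp only [Tm.enc, Nat.pair_eq_pair] at h <;> try omega
    obtain ⟨rfl, rfl⟩ := Prod.mk.inj (Encodable.encode_injective h.2.1)
    rw [i _ h.2.2]

instance instCountableTm : Countable Tm := ⟨⟨Tm.enc, Tm.enc_inj⟩⟩

/-- what a name denotes over the enumeration `R` -/
def fn (R : ℕ → CS) : Tm → ℕ → Set Cd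
  | .all => fun _ => {c | IsC (Set.range R) c}
  | .bit n b => fun _ => {c | IsC (Set.range R) c ∧ ∀ y ∈ c.2, y n = b}
  | .cap t u => fun e => fn R t e ∩ fn R u e
  | .only e t => fun e' => if e' = e then fn R t 0 else {c | IsC (Set.range R) c}
  | .fam s u t => fun _ => FamS (Set.range R) s (R u) (fn R t)

theorem fn_isC (R : ℕ → CS) : ∀ t e, ∀ c ∈ fn R t e, IsC (Set.range R) c
  | .all, _, _, h => h
  | .bit _ _, _, _, h => h.1
  | .cap t _, e, c, h => fn_isC R t e c h.1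
  | .only e t, e', c, h => by
    simp only [fn] at h
    split_ifs at h
    exacts [fn_isC R t 0 c h, h]
  | .fam _ _ _, _, _, h => h.1

/-- a union of members of the pool -/
def UPl (R : ℕ → CS) (E : Set Cd) : Prop :=
  ∀ c ∈ E, ∃ t, Pers (Set.range R) (fn R t 0) ∧ c ∈ fn R t 0 ∧ fn R t 0 ⊆ E

def GoalS (R : ℕ → CS) (G : Set (Set Cd)) : Prop := (∀ E ∈ G, UPl R E) ∧
  ∀ t, Pers (Set.range R) (fn R t 0) → (fn R t 0).Nonempty → ∃ E ∈ G, (fn R t 0 ∩ E).Nonempty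

variable {R : ℕ → CS} {Gd : Set CS}

theorem ownerS (hJ : Idl (Set.range R)) {G : Set (Set Cd)} (hG : GoalS R G) (t : Tm) :
    ∀ (n : ℕ) (s : St) (A : CS), s.act.length = n → Inv (Set.range R) s A (fn R t) → s.mode = 1 →
      ∃ (s' : St) (A' : CS) (t' : Tm), Cont (Set.range R) s A s' A' ∧
        Inv (Set.range R) s' A' (fn R t') ∧ s'.mode = 2 ∧ s'.ph = s.ph ∧ s'.rcd = s.rcd ∧
        (∀ e, fn R t' e ⊆ fn R t e) ∧ (∀ e, e ≠ s.own → fn R t' e = fn R t e) ∧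
        (s.own ∈ s'.act → ∃ E ∈ G, fn R t' s.own ⊆ E) := by
  intro n
  induction n using Nat.strong_induction_on with
  | _ n ih =>
  intro s A hn h hm
  by_cases ho : s.own ∈ s.act
  swap
  · have hb : memb s.own s.act = false := by
      rw [← Bool.not_eq_true, memb_iff]; exact ho
    have e : nx s (0, [], 0, []) = ((2, s.1.2), s.2) := by simp [nx, nx1, hm, eqb, hb]
    have hl : Leads s A (nx s (0, [], 0, [])) A :=
      Leads.single (by rw [e]; exact subset_rfl) fun X _ =>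
        ⟨fun h0 => by omega, fun _ h1 => absurd h1 ho, fun h3 => by omega⟩
    rw [e] at hl
    exact ⟨((2, s.1.2), s.2), A, t, ⟨hl, fun e he => he, fun e he he' => absurd he he'⟩,
      h.shrink rfl subset_rfl (fun e he => he) h.ne, rfl, rfl, rfl, fun _ => subset_rfl,
      fun _ _ => rfl, fun h1 => absurd h1 ho⟩
  by_cases hx : Exit (Set.range R) s A (fn R t)
  · obtain ⟨s1, A1, k1, k2, k3, k4, k5, k6⟩ := hx
    obtain ⟨s', A', t', l1, l2, l3, l4, l5, l6, l7, l8⟩ := ih _ (hn ▸ k6) s1 A1 rfl k2 k3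
    have e : s1.own = s.own := by unfold St.own; rw [k4]
    exact ⟨s', A', t', k1.trans l1, l2, l3, l4.trans k4, l5.trans k5, l6, e ▸ l7, e ▸ l8⟩
  obtain ⟨u, rfl⟩ := h.lev
  obtain ⟨E, hE, ⟨A1, Q⟩, c1, c2⟩ := hG.2 (.fam s u t) (famS_pers hJ h ho hx)
    ⟨(R u, Img s.own (PS s (R u))), isC_img _ h.lev h.ne, s, ⟨Leads.refl _ _, h.ne⟩,
      ⟨h.pp, hm, rfl, rfl, rfl⟩, h.keep, subset_rfl⟩
  obtain ⟨t1, p1, p2, p3⟩ := hG.1 E hE _ c2
  obtain ⟨s1, c0, i0, m1, hp, hr, ha, eo, hQ⟩ := famS_state h c1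
  dsimp only at c0 i0 hQ
  rcases owner_send i0 m1 (by rw [eo, ha]; exact ho) 1 (game_fam_up hQ (fam_const c1.1)) with
    ⟨s', k1, k2, k3, k4, k5, k6⟩ | ⟨s', ζ', k1, k2, k3, k4, k5, k6, -, -, k9⟩
  · exact absurd ⟨s', A1, c0.trans k1, k2, k3, k4.trans hp, k5.trans hr, ha ▸ k6⟩ hx
  have e1 : fn R (.cap t (.only s.own t1)) s.own = fn R t s.own ∩ fn R t1 0 := by simp [fn]
  have e2 : ∀ e, e ≠ s.own → fn R (.cap t (.only s.own t1)) e = fn R t e := fun e he => by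
    simp only [fn, if_neg he]
    exact Set.inter_eq_left.2 fun c hc => fn_isC R t e c hc
  refine ⟨s', A1, .cap t (.only s.own t1), c0.trans k1,
    ⟨k2.pp, k2.lev, k2.ne, k2.tot, fun e => ?_, fun e he => ?_⟩, k3, k4.trans hp, k5.trans hr,
    fun e => Set.inter_subset_left, e2, fun _ => ⟨E, hE, e1 ▸ Set.inter_subset_right.trans p3⟩⟩
  · by_cases he : e = s.own
    · rw [he, e1]
      exact (h.pers _).inter hJ p1
    · rw [e2 e he]
      exact h.pers e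
  · by_cases he' : e = s.own
    · subst he'
      rw [e1]
      refine ⟨k2.keep _ he, p1.sub _ p2 _ (isC_img _ k2.lev k2.ne) ?_⟩
      rintro y ⟨X, hX, hy⟩
      exact (k9 _ X ⟨hX, rfl⟩).2 y (eo ▸ hy)
    · rw [e2 e he']
      exact k2.keep e he

theorem phaseS (θ : ℕ) (hJ : Idl (Set.range R)) (hG : HG (Set.range R) Gd) {s : St} {A : CS}
    {t : Tm} (h : Inv (Set.range R) s A (fn R t)) (hm : s.mode = 0) (hlt : ∀ e ∈ s.act, e < s.ph)
    (hu : ∀ e, s.ph ≤ e → fn R t e = {c | IsC (Set.range R) c}) {G : Set (Set Cd)}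
    (hg : GoalS R G) {T : CS} (hT : T ∈ Set.range R) (fl : Bool) :
    ∃ (s' : St) (A' : CS) (t' : Tm), LeadsP θ s A s' A' ∧ Inv (Set.range R) s' A' (fn R t') ∧
      s'.mode = 0 ∧ s'.ph = s.ph + 1 ∧ (∀ e ∈ s'.act, e ∈ s.act ∨ e = s.ph) ∧
      (∀ e, e ∈ s.act ∨ e = s.ph → e ∉ s'.act → Settled (Set.range R) e (PS s' A')) ∧
      (∀ e, fn R t' e ⊆ fn R t e) ∧ (∀ e, e ≠ s.own → fn R t' e = fn R t e) ∧
      (s.own ∈ s'.act → ∃ E ∈ G, fn R t' s.own ⊆ E) ∧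
      ∃ m l, s'.rcd = s.rcd ++ [Nat.pair m l] ∧
        (fl = false → ∀ X ∈ PS s' A', ∀ n, X (Nat.pair m (l + n)) = T n) ∧
        (fl = true → ∀ X ∈ PS s' A', ∀ y, Tot s.own X → Ag s.own X y → Md θ Gd y → LeT T y) := by
  obtain ⟨s1, D1, l1, i1, m1, p1, r1, d1, a1⟩ := activate hJ h hm hlt
  have i1' : Inv (Set.range R) s1 A (fn R t) := by
    refine ⟨i1.pp, i1.lev, i1.ne, i1.tot, h.pers, fun e he => ?_⟩
    by_cases k : e ∈ s.act
    · exact d1 e k ▸ i1.keep e he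
    · rcases a1 with a1 | ⟨a1, -⟩
      · rw [a1] at he
        rw [hu e ((List.mem_cons.1 he).resolve_right k).ge]
        exact isC_img _ i1.lev i1.ne
      · exact absurd (a1 ▸ he) k
  obtain ⟨s2, A2, t2, c2, i2, m2, p2, r2, d2, d3, g2⟩ := ownerS hJ hg t _ s1 A rfl i1' m1
  obtain ⟨s3, A3, l3, b3, t3, i3, m3, p3, m, l, r3, u3⟩ := sys_roundP θ hJ hG i2 m2 hT fl
  have ho : s1.own = s.own := by unfold St.own; rw [p1]
  have ho2 : s2.own = s.own := by unfold St.own; rw [p2, p1]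
  have l23 := (c2.leads.toP θ p2).trans l3
  have cset : ∀ e ∈ s1.act, e ∉ s3.act → Settled (Set.range R) e (PS s3 A3) := fun e he hne => by
    by_cases h1 : e ∈ s2.act
    · exact t3 e h1 hne
    · exact (c2.set e he h1).mono l3.1
  refine ⟨s3, A3, t2, (l1.toP θ p1).trans l23, i3, m3, by rw [p3, p2, p1], fun e he => ?_,
    fun e he hne => ?_, d2, ho ▸ d3, fun hs => ?_, m, l, by rw [r3, r2, r1], ho2 ▸ u3⟩
  · have h1 := c2.sub e (b3 e he)
    rcases a1 with a1 | ⟨a1, -⟩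
    · rw [a1] at h1
      exact (List.mem_cons.1 h1).symm
    · exact Or.inl (a1 ▸ h1)
  · rcases a1 with a1 | ⟨a1, st⟩
    · exact cset e (by rw [a1]; exact List.mem_cons.2 he.symm) hne
    · rcases he with he | rfl
      · exact cset e (by rw [a1]; exact he) hne
      · exact st.mono l23.1
  · rw [← ho] at hs ⊢
    exact g2 (b3 _ hs)

theorem seqS (θ : ℕ) (hJ : Idl (Set.range R)) (hG : HG (Set.range R) Gd) (T : ℕ → CS)
    (hT : ∀ k, T k ∈ Set.range R) (fl : ℕ → Bool) (goal : ℕ → Set (Set Cd))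
    (hg : ∀ g, GoalS R (goal g)) :
    ∃ σ : ℕ → St × CS × (ℕ → Set Cd), (∀ p, consE_Good (Set.range R) p (σ p)) ∧
      ∀ p, consP_Rel θ (Set.range R) Gd T fl goal p (σ p) (σ (p + 1)) := by
  obtain ⟨σ0, h0, -⟩ := consE_seq hJ T hT (fun _ => {{c | IsC (Set.range R) c}}) fun _ =>
    ⟨by rintro _ rfl; exact pers_univ hJ, fun c hc => subset_reach _ ⟨_, rfl, hc⟩⟩
  let I : ℕ → St × CS × Tm → Prop := fun p σ =>
    consE_Good (Set.range R) p (σ.1, σ.2.1, fn R σ.2.2) ∧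
      ∀ e, p ≤ e → fn R σ.2.2 e = {c | IsC (Set.range R) c}
  have I0 : I 0 ((σ0 0).1, (σ0 0).2.1, .all) := by
    obtain ⟨a, b⟩ := h0 0
    exact ⟨⟨⟨a.pp, a.lev, a.ne, a.tot, fun _ => pers_univ hJ,
      fun e he => absurd (b.2.2.1 e he) (Nat.not_lt_zero e)⟩, b⟩, fun _ _ => rfl⟩
  have H : ∀ p (σ : {σ // I p σ}), ∃ τ : {τ // I (p + 1) τ}, consP_Rel θ (Set.range R) Gd T fl goal p
      (σ.1.1, σ.1.2.1, fn R σ.1.2.2) (τ.1.1, τ.1.2.1, fn R τ.1.2.2) := by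
    rintro p ⟨⟨s, A, t⟩, ⟨h1, h2, h3, h4, h5⟩, h6⟩
    simp only at h1 h2 h3 h4 h5 h6
    subst h3
    obtain ⟨s', A', t', k1, k2, k3, k4, k5, k6, k7, k7', k8, m, l, k9, k10⟩ :=
      phaseS θ hJ hG h1 h2 h4 h6 (hg s.ph.unpair.2) (hT s.ph) (fl s.ph)
    refine ⟨⟨(s', A', t'), ⟨k2, k3, k4, fun e he => ?_, ?_⟩, fun e he => ?_⟩, k1, k6,
      fun e _ => k7 e, k8, m, l, k9, k10⟩
    · rcases k5 e he with h | h
      · exact (h4 e h).trans (Nat.lt_succ_self _)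
      · rw [h]; exact Nat.lt_succ_self _
    · show s'.rcd.length = _
      rw [k9, List.length_append, h5]; rfl
    · have : s.own ≤ s.ph := Nat.unpair_left_le _
      exact (k7' e (by omega)).trans (h6 e (by omega))
  choose f hf using H
  let u : ∀ p, {σ // I p σ} := fun p => Nat.rec ⟨_, I0⟩ (fun p σ => f p σ) p
  exact ⟨fun p => ((u p).1.1, (u p).1.2.1, fn R (u p).1.2.2), fun p => (u p).2.1,
    fun p => hf p (u p)⟩

theorem constructS (θ : ℕ) {J : Set CS} (hen : J = Set.range R) (hJ : Idl J) (hG : HG J Gd)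
    (T : ℕ → CS) (hT : ∀ k, T k ∈ J) (goal : ℕ → Set (Set Cd)) (hg : ∀ g, GoalS R (goal g)) :
    ∃ X ∈ PP, (∃ R : ℕ × ℕ → Prop, SE (jp (jp X)) R ∧ (∀ k, ∃ a, R (k, a)) ∧
        ∀ k a, R (k, a) → ∀ n, X (Nat.pair a.unpair.1 (a.unpair.2 + n)) = T k n) ∧
      (∀ e y, Tot e X → Ag e X y → (∃ A ∈ J, LeT X (jn A y)) ∨
        ∃ c : ℕ → Cd, (∀ p, IsC J (c p)) ∧ (∀ p, y ∈ (c p).2) ∧
          ∀ g, ∃ D ∈ goal g, ∀ᶠ p in atTop, c p ∈ D) ∧
      ∀ e y, Tot e X → Ag e X y → Md θ Gd y → ∀ A ∈ J, LeT A y := by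
  let T' : ℕ → CS := fun p => if p % 2 = 1 then R (p.unpair.2 / 2).unpair.1 else T (p / 2)
  have hT' : ∀ p, T' p ∈ J := fun p => by
    by_cases hp : p % 2 = 1
    · simp only [T', hp, if_true]; rw [hen]; exact ⟨_, rfl⟩
    · simp only [T', hp, if_false]; exact hT _
  obtain ⟨σ, hGo, hR⟩ := seqS θ (hen ▸ hJ) (hen ▸ hG) T' (hen ▸ hT') (fun p => decide (p % 2 = 1))
    goal hg
  rw [← hen] at hGo hR
  obtain ⟨X, hX⟩ := IsCompact.nonempty_iInter_of_sequence_nonempty_isCompact_isClosed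
    (fun p => PS (σ p).1 (σ p).2.1) (fun p => (hR p).1.1) (fun p => (hGo p).1.ne)
    (consE_closed _ _).isCompact (fun p => consE_closed _ _)
  rw [Set.mem_iInter] at hX
  have run : ∀ p, Relation.ReflTransGen (StepP θ X) (σ 0).1 (σ p).1 := by
    intro p
    induction p with
    | zero => exact Relation.ReflTransGen.refl
    | succ p ih => exact ih.trans ((hR p).1.2 X (hX (p + 1)))
  have recd : ∀ k, ∃ m l, (σ (2 * k + 1)).1.rcd[2 * k]? = some (Nat.pair m l) ∧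
      ∀ n, X (Nat.pair m (l + n)) = T k n := by
    intro k
    obtain ⟨m, l, h1, h2, -⟩ := (hR (2 * k)).2.2.2.2
    have hk : ¬ 2 * k % 2 = 1 := by omega
    have h3 := h2 (by simp) X (hX (2 * k + 1))
    simp only [T', hk, if_false] at h3
    rw [show 2 * k / 2 = k by omega] at h3
    refine ⟨m, l, ?_, h3⟩
    have := (hGo (2 * k)).2.2.2.2
    rw [h1, List.getElem?_append_right this.le, this]
    simp
  obtain ⟨r1, r2⟩ := run_recordsP θ X (σ 0).1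
  refine ⟨X, (hGo 0).1.pp (hX 0).1, ⟨_, r1.comp (f := fun w : ℕ × ℕ => (2 * w.1, w.2))
    (by fun_prop), fun k => ?_, ?_⟩, fun e y hTot hAg => ?_, fun e y hTot hAg hMd A hA => ?_⟩
  · obtain ⟨m, l, h1, -⟩ := recd k
    exact ⟨_, _, run (2 * k + 1), h1⟩
  · rintro k a ⟨s, hs, ha⟩
    obtain ⟨m, l, h1, h2⟩ := recd k
    rw [r2 _ _ (2 * k) a _ hs (run (2 * k + 1)) ha h1, Nat.unpair_pair]
    exact h2
  · by_cases hS : ∃ q, Settled J e (PS (σ q).1 (σ q).2.1)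
    · obtain ⟨q, h | ⟨A, hA, h⟩⟩ := hS
      · exact absurd hTot (h X (hX q))
      · exact Or.inl ⟨A, hA, h X (hX q) y hAg⟩
    have act : ∀ p, e + 1 ≤ p → e ∈ (σ p).1.act := by
      intro p hp
      induction p, hp using Nat.le_induction with
      | base => exact by_contra fun h => hS ⟨_, (hR e).2.1 e (Or.inr rfl) h⟩
      | succ p _ ih => exact by_contra fun h => hS ⟨_, (hR p).2.1 e (Or.inl ih) h⟩
    have dec : ∀ p q, e + 1 ≤ p → p ≤ q → (σ q).2.2 e ⊆ (σ p).2.2 e := by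
      intro p q hp hq
      induction q, hq using Nat.le_induction with
      | base => exact subset_rfl
      | succ q hq ih => exact ((hR q).2.2.1 e (act q (hp.trans hq))).trans ih
    have keep := fun p => (hGo (p + (e + 1))).1.keep e (act _ (Nat.le_add_left _ _))
    refine Or.inr ⟨fun p => ((σ (p + (e + 1))).2.1, Img e (PS (σ (p + (e + 1))).1
      (σ (p + (e + 1))).2.1)), fun p => ((hGo _).1.pers e).isC _ (keep p),
      fun p => ⟨X, hX _, hAg⟩, fun g => ?_⟩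
    have h1 := (hR (Nat.pair e g)).2.2.2.1
    rw [Nat.unpair_pair] at h1
    have h2 : e + 1 ≤ Nat.pair e g + 1 := Nat.succ_le_succ (Nat.left_le_pair e g)
    obtain ⟨E, hE, h3⟩ := h1 (act _ h2)
    refine ⟨E, hE, eventually_atTop.2 ⟨Nat.pair e g, fun p hp => h3 (dec _ _ h2 ?_ (keep p))⟩⟩
    omega
  · rw [hen] at hA
    obtain ⟨j, rfl⟩ := hA
    obtain ⟨g, h1, h2⟩ := consP_odd e j
    obtain ⟨m, l, -, -, h3⟩ := (hR (Nat.pair e g)).2.2.2.2
    have h4 := h3 (by simp [h1]) X (hX _) y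
    simp only [T', h1, if_true, Nat.unpair_pair, h2] at h4
    exact h4 hTot hAg hMd

end Pool.Agent.MinDeg
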