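import Pool.Agent.P.MP_f8f34d_lc.C.Pool
import Pool.Agent.P.MP_f8f34d_lc.N.Left

/-! Runs of the machine depend on the level only; the relation `Leads` is Borel. -/

namespace Pool.Agent.MinDeg

open Pool.Agent.Lib.ComputableProp MeasureTheory

theorem hread_tr {h : Hp} {X X' : CS} {d : ℕ × Tr3} (H : HRead h X d) (e : lev h.1 X' = lev h.1 X)
    (k : X' ∈ K h.2.2.1) (h0 : d.1 = 0 → Pat h X' d.2.1 d.2.2.1) (h1 : d.1 ≠ 0 → X' ∈ K (d.1 - 1)) :
    HRead h X' d := by
  unfold HRead
  rw [e]
  rcases H with ⟨a, -, c, g⟩ | ⟨a, -, c, g⟩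
  · exact Or.inl ⟨a, c.2.1 X' ⟨k, e⟩ (h1 a), c, g⟩
  · exact Or.inr ⟨a, h0 a, c, g⟩

theorem step_tr {X X' : CS} {s s' : St} (h : Step X s s') (k : X' ∈ K s'.ix)
    (e : lev s'.mu X' = lev s'.mu X) : Step X' s s' ∧ X' ∈ K s.ix ∧ lev s.mu X' = lev s.mu X := by
  obtain ⟨d, ⟨a0, a1, a3⟩, rfl⟩ := h
  suffices H : X' ∈ K s.ix ∧ lev s.mu X' = lev s.mu X ∧
      (s.mode = 1 → s.own ∈ s.act → HRead s.hA X' d) ∧
      (3 ≤ s.mode → s.todo ≠ [] → HRead s.hB X' d) from
    ⟨⟨d, ⟨fun m => by rw [H.2.1]; exact a0 m, H.2.2⟩, rfl⟩, H.1, H.2.1⟩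
  obtain ⟨j, τ⟩ := d
  by_cases m0 : s.mode = 0
  · cases j with
    | zero =>
      have e1 : nx s (0, τ) =
          ((1, s.ph, s.ix, s.key, s.len), (s.mu, s.ph :: s.act, s.todo, s.rcd)) := by
        simp [nx, nx0, m0, eqb]
      rw [e1] at k e
      exact ⟨k, e, fun m => by omega, fun m => by omega⟩
    | succ j =>
      have e1 : nx s (j + 1, τ) = ((1, s.ph, iDiv (s.ix, s.ph, j), s.key, s.len), s.2) := by
        simp [nx, nx0, m0, eqb]
      rw [e1] at k e
      exact ⟨((mem_iDiv _ _ _ _).1 k).1, e, fun m => by omega, fun m => by omega⟩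
  by_cases m1 : s.mode = 1
  · by_cases ho : s.own ∈ s.act
    · cases j with
      | zero =>
        rw [consC_nx_msg m1 ho] at k e
        have k1 := (mem_iMsg X' _ _ _).1 k
        exact ⟨k1.1, e, fun _ _ => hread_tr (a1 m1 ho) e k1.1 (fun _ => k1.2.1) fun c => absurd rfl c,
          fun m => by omega⟩
      | succ j =>
        rw [consC_nx_ab m1 ho] at k e
        have k1 := (mem_iCap X' _ _).1 k
        exact ⟨k1.1, e, fun _ _ => hread_tr (a1 m1 ho) e k1.1 (fun c => absurd c (Nat.succ_ne_zero j))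
          fun _ => k1.2, fun m => by omega⟩
    · have hb : memb s.own s.act = false := by
        rw [← Bool.not_eq_true, memb_iff]; exact ho
      have e1 : nx s (j, τ) = ((2, s.1.2), s.2) := by simp [nx, nx1, m1, eqb, hb]
      rw [e1] at k e
      exact ⟨k, e, fun _ c => absurd c ho, fun m => by omega⟩
  by_cases m2 : s.mode = 2
  · have e1 : nx s (j, τ) = nx2 s := by simp [nx, m2, eqb]
    rw [e1] at k e
    exact ⟨k, e, fun m => by omega, fun m => by omega⟩
  have m3 : 3 ≤ s.mode := by omega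
  by_cases ht : s.todo = []
  · have e1 : nx s (j, τ) = nxR s := by
      simp only [nx, nx3, eqb, m0, m1, m2, ht, decide_false, List.length_nil, decide_true,
        cond_false, cond_true]
    rw [e1, (consA_nxR s).1] at k
    rw [e1, (consA_nxR s).2.1, lev_cons, lev_cons] at e
    exact ⟨k, (rs_inj e).1, fun m => by omega, fun _ c => absurd ht c⟩
  rw [consB_nx m3 ht] at k e
  cases j with
  | zero =>
    have k1 := (mem_iMsg X' _ _ _).1 k
    exact ⟨k1.1, e, fun m => by omega,
      fun _ _ => hread_tr (a3 m3 ht) e k1.1 (fun _ => k1.2.1) fun c => absurd rfl c⟩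
  | succ j =>
    have k1 := (mem_iCap X' _ _).1 k
    exact ⟨k1.1, e, fun m => by omega, fun _ _ => hread_tr (a3 m3 ht) e k1.1
      (fun c => absurd c (Nat.succ_ne_zero j)) fun _ => k1.2⟩

theorem run_tr {X X' : CS} {s s' : St} (h : Relation.ReflTransGen (Step X) s s')
    (k : X' ∈ K s'.ix) (e : lev s'.mu X' = lev s'.mu X) :
    Relation.ReflTransGen (Step X') s s' ∧ X' ∈ K s.ix ∧ lev s.mu X' = lev s.mu X := by
  induction h with
  | refl => exact ⟨Relation.ReflTransGen.refl, k, e⟩
  | tail _ h ih =>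
    obtain ⟨a, b, c⟩ := step_tr h k e
    obtain ⟨a', b', c'⟩ := ih b c
    exact ⟨a'.tail a, b', c'⟩

section
variable {α : Type} [Primcodable α]

theorem Pii.meas {P : CS → α → Prop} (h : Pii P) (a : α) : Measurable fun x => P x a :=
  measurableSet_setOfPred.1 (h.isClosed a).measurableSet

theorem Sig.meas {P : CS → α → Prop} (h : Sig P) (a : α) : Measurable fun x => P x a :=
  measurableSet_setOfPred.1 (h.isOpen a).measurableSet

theorem CM.meas {F : CS → α → CS} (h : CM F) (a : α) : Measurable fun x => F x a :=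
  measurable_pi_lambda _ fun n => measurable_to_bool (Sig.isOpen h (a, n, true)).measurableSet

/-- inclusion of closed sections is Borel -/
theorem meas_sub {P Q : CS → CS → α → Prop} (hP : Pii fun z a => P (lf z) (rt z) a)
    (hQ : Pii fun z a => Q (lf z) (rt z) a) (a : α) :
    Measurable fun A => ∀ z, P A z a → Q A z a := by
  obtain ⟨S, -, h2, -, h4⟩ := Sig.stage hQ
  have h := Pii.exC (P := fun A z (w : α × ℕ) => P A z w.1 ∧ S (jn A z) w)
    ((hP.comp Computable.fst).and (h2.map (CM.id.lf.jn CM.id.rt) Computable.id))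
  have e : (fun A => ∀ z, P A z a → Q A z a) =
      fun A => ∀ s : ℕ, ¬ ∃ z, P A z a ∧ S (jn A z) (a, s) := by
    funext A
    refine propext ⟨fun H s ⟨z, k1, k2⟩ => ?_, fun H z k => by_contra fun k' => ?_⟩
    · have := (h4 (jn A z) a).2 ⟨s, k2⟩
      simp only [lf_jn, rt_jn] at this
      exact this (H z k1)
    · obtain ⟨s, hs⟩ := (h4 (jn A z) a).1 (by simpa only [lf_jn, rt_jn] using k')
      exact H s ⟨z, k, hs⟩
  rw [e]
  exact Measurable.forall fun s => (h.meas (a, s)).not

end

theorem meas_iso (h : Hp) (w : ℕ) : Measurable fun A => Iso h A w := by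
  have e : (fun A => Iso h A w) = fun A => (∃ X ∈ UU h.1 h.2.2.1 A, X ∈ K w) ∧
      (∀ k, ∀ Y ∈ UU h.1 h.2.2.1 A, Y ∈ K w → Br h Y k → Y k = true) ∧
      ∀ k, ∀ Y ∈ UU h.1 h.2.2.1 A, Y ∈ K w → ∀ Y' ∈ UU h.1 h.2.2.1 A, Y' ∈ K w →
        (∃ y, Ag h.2.2.2 Y y ∧ Ag h.2.2.2 Y' y) → Y k = Y' k := by
    funext A
    refine propext (and_congr Iff.rfl (and_congr ?_ ?_))
    · exact ⟨fun H k Y a b c => H Y a b k c, fun H Y a b k c => H k Y a b c⟩
    · exact ⟨fun H k Y a b Y' a' b' c => congrFun (H Y a b Y' a' b' c) k,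
        fun H Y a b Y' a' b' c => funext fun k => H k Y a b Y' a' b' c⟩
  rw [e]
  exact (hideeff_iso1.meas (h, w)).and ((Measurable.forall fun k =>
    hideeff_iso2.meas ((h, w), k)).and (Measurable.forall fun k => hideeff_iso3.meas ((h, w), k)))

theorem meas_lev (μ : List ℕ) : Measurable (lev μ) := (CM.id.lev Computable.id).meas μ

theorem meas_hread (h : Hp) (d : ℕ × Tr3) : Measurable fun X => HRead h X d := by
  have hI : ∀ w, Measurable fun X => Iso h (lev h.1 X) w := fun w =>
    (meas_iso h w).comp (meas_lev h.1)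
  have hF : ∀ v τ, Measurable fun X => Full h (lev h.1 X) v τ := fun v τ =>
    (hideeff_full0.meas (h, v, τ)).comp (meas_lev h.1)
  refine Measurable.or (measurable_const.and (Measurable.and (Measurable.forall fun k =>
    (pii_Br0.meas (h, k)).imp ?_) ((hI _).and (Measurable.forall fun w =>
      measurable_const.imp (hI w).not)))) (measurable_const.and (Measurable.and ?_ ((hF _ _).and
    (Measurable.forall fun τ => measurable_const.imp (measurable_const.imp (hF _ τ).not)))))
  · exact (Sig.bit Computable.id (Computable.const true)).meas k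
  · exact (pii_Pat (α := Unit) CM.id (Computable.const h) (Computable.const _)
      (Computable.const _)).meas ()

theorem meas_run (s s' : St) : Measurable fun X => Relation.ReflTransGen (Step X) s s' := by
  have hD : ∀ (s : St) n, Measurable fun X => Dv s.mu s.ix s.ph (lev s.mu X) n := fun s n =>
    mach_pii_Dv.meas ((s.mu, s.ix, s.ph), n)
  have hS : ∀ s s' : St, Measurable fun X => Step X s s' := fun s s' =>
    Measurable.exists fun d => Measurable.and (Measurable.and (measurable_const.imp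
      ((measurable_const.and (Measurable.forall fun n => (hD s n).not)).or
        (measurable_const.and ((hD s _).and (Measurable.forall fun n =>
          measurable_const.imp (hD s n).not)))))
      ((measurable_const.imp (measurable_const.imp (meas_hread _ d))).and
        (measurable_const.imp (measurable_const.imp (meas_hread _ d))))) measurable_const
  simp only [mach_run_iff]
  exact Measurable.exists fun w => measurable_const.and
    (Measurable.forall fun k => measurable_const.imp (hS _ _))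

theorem analytic_ex {α β : Type} [TopologicalSpace α] [PolishSpace α] [MeasurableSpace α]
    [BorelSpace α] [TopologicalSpace β] [PolishSpace β] [MeasurableSpace β] [BorelSpace β]
    {P : α → β → Prop} (hP : Measurable fun p : α × β => P p.1 p.2) :
    AnalyticSet {a | ∃ b, P a b} := by
  have e : {a | ∃ b, P a b} = Prod.fst '' {p : α × β | P p.1 p.2} := by
    ext a
    simp
  rw [e]
  exact (measurableSet_setOfPred.2 hP).analyticSet.image_of_continuous continuous_fst

theorem meas_eq {α : Type} [MeasurableSpace α] {f g : α → CS} (hf : Measurable f)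
    (hg : Measurable g) : Measurable fun a => f a = g a :=
  measurableSet_setOfPred.1 (measurableSet_eq_fun hf hg)

theorem meas_K (i : ℕ) : Measurable fun X => X ∈ K i :=
  measurableSet_setOfPred.1 (isClosed_K i).measurableSet

theorem meas_ne (s : St) : Measurable fun A => (PS s A).Nonempty :=
  (Pii.exC (P := fun A X (_ : Unit) => X ∈ UU s.mu s.ix A)
    (pii_UU CM.id.rt CM.id.lf (Computable.const _) (Computable.const _))).meas ()

theorem meas_leads (s0 s : St) :
    Measurable fun p : CS × CS => Leads s0 p.1 s p.2 ∧ (PS s p.2).Nonempty := by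
  have : PolishSpace CS := {}
  have hP : ∀ (s : St) {f : (CS × CS) × CS → CS}, Measurable f →
      Measurable fun q : (CS × CS) × CS => q.2 ∈ PS s (f q) := fun s f hf =>
    ((meas_K s.ix).comp measurable_snd).and (meas_eq ((meas_lev s.mu).comp measurable_snd) hf)
  have hR : Measurable fun q : (CS × CS) × CS => Relation.ReflTransGen (Step q.2) s0 s :=
    (meas_run s0 s).comp measurable_snd
  have h1 := analytic_ex (P := fun (p : CS × CS) X => X ∈ PS s p.2 ∧ X ∈ PS s0 p.1 ∧
    Relation.ReflTransGen (Step X) s0 s)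
    ((hP s measurable_fst.snd).and ((hP s0 measurable_fst.fst).and hR))
  have h2 := analytic_ex (P := fun (p : CS × CS) X => ¬ (PS s p.2).Nonempty ∨ (X ∈ PS s p.2 ∧
    ¬ (X ∈ PS s0 p.1 ∧ Relation.ReflTransGen (Step X) s0 s)))
    (((meas_ne s).comp measurable_fst.snd).not.or
      ((hP s measurable_fst.snd).and ((hP s0 measurable_fst.fst).and hR).not))
  refine measurableSet_setOfPred.1 (AnalyticSet.measurableSet_of_compl ?_ ?_)
  · refine (congrArg AnalyticSet (Set.ext fun p => ?_)).mpr h1
    constructor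
    · rintro ⟨h, X, hX⟩
      exact ⟨X, hX, h.1 hX, h.2 X hX⟩
    · rintro ⟨X, k1, k2, k3⟩
      refine ⟨⟨fun X' h' => ?_, fun X' h' => ?_⟩, X, k1⟩
      · obtain ⟨-, b, c⟩ := run_tr k3 h'.1 (h'.2.trans k1.2.symm)
        exact ⟨b, c.trans k2.2⟩
      · exact (run_tr k3 h'.1 (h'.2.trans k1.2.symm)).1
  · refine (congrArg AnalyticSet (Set.ext fun p => ?_)).mpr h2
    constructor
    · intro h
      by_contra hc
      have k : ∀ X ∈ PS s p.2, X ∈ PS s0 p.1 ∧ Relation.ReflTransGen (Step X) s0 s :=
        fun X hX => by_contra fun c => hc ⟨X, Or.inr ⟨hX, c⟩⟩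
      exact h ⟨⟨fun X hX => (k X hX).1, fun X hX => (k X hX).2⟩,
        by_contra fun c => hc ⟨zz, Or.inl c⟩⟩
    · rintro ⟨X, k | k⟩ h
      · exact k h.2
      · exact k.2 ⟨h.1.1 k.1, h.1.2 X k.1⟩

end Pool.Agent.MinDeg
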