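import Pool.Agent.P.MP_f8f34d_lc.N.Defs

/-! Tagged trees: conditions, retagging, and the forcing of Borel sets. -/

namespace Pool.Agent.MinDeg

/-- a tag: a level and a counter, or high -/
abbrev Tg : Type 1 := Option (Ordinal.{0} × ℕ)
/-- parent, mark; two free coordinates -/
abbrev Vd : Type := (ℕ × Bool) × ℕ × Bool
/-- length, visible data, tags -/
abbrev Qc : Type 1 := ℕ × (ℕ → Vd) × (ℕ → Tg)

def tlt (t u : Tg) : Prop :=
  ∀ y, u = some y → ∃ x, t = some x ∧ (x.1 < y.1 ∨ (x.1 = y.1 ∧ x.2 < y.2))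

def thi (η : Ordinal.{0}) (t : Tg) : Prop := ∀ x, t = some x → η ≤ x.1

def Vok (v : ℕ → Vd) (t : ℕ → Tg) (n : ℕ) : Prop :=
  ((v n).1.1 < n → tlt (t n) (t (v n).1.1)) ∧
  ((v n).1.2 = true → t n = none ∧ ((v n).1.1 < n → (v (v n).1.1).1.2 = true) ∧
    ∀ m < n, (v m).1.2 = true → m ≤ (v n).1.1 ∧ (v n).1.1 < n)

def QV (p : Qc) : Prop := ∀ n < p.1, Vok p.2.1 p.2.2 n

/-- `q` extends `p` -/
def QL (q p : Qc) : Prop := p.1 ≤ q.1 ∧ ∀ n < p.1, q.2.1 n = p.2.1 n ∧ q.2.2 n = p.2.2 n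

def QS (η : Ordinal.{0}) (p q : Qc) : Prop := p.1 = q.1 ∧ ∀ n < p.1, p.2.1 n = q.2.1 n ∧
  (p.2.2 n = q.2.2 n ∨ (thi η (p.2.2 n) ∧ thi η (q.2.2 n)))

theorem Vok.congr {v v' : ℕ → Vd} {t t' : ℕ → Tg} {n : ℕ} (h : Vok v t n)
    (e : ∀ m ≤ n, (v' m).1 = (v m).1 ∧ t' m = t m) : Vok v' t' n := by
  obtain ⟨e1, e2⟩ := e n le_rfl
  unfold Vok
  rw [e1, e2]
  refine ⟨fun k => ?_, fun k => ⟨(h.2 k).1, fun k' => ?_, fun m hm k' => ?_⟩⟩
  · rw [(e _ k.le).2]; exact h.1 k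
  · rw [(e _ k'.le).1]; exact (h.2 k).2.1 k'
  · rw [(e _ hm.le).1] at k'; exact (h.2 k).2.2 m hm k'

theorem QL.refl (p : Qc) : QL p p := ⟨le_rfl, fun _ _ => ⟨rfl, rfl⟩⟩

theorem QL.trans {p q r : Qc} (h : QL r q) (k : QL q p) : QL r p :=
  ⟨k.1.trans h.1, fun n hn => ⟨(h.2 n (hn.trans_le k.1)).1.trans (k.2 n hn).1,
    (h.2 n (hn.trans_le k.1)).2.trans (k.2 n hn).2⟩⟩

theorem thi.mono {η η' : Ordinal.{0}} {t : Tg} (h : thi η' t) (k : η ≤ η') : thi η t :=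
  fun x hx => k.trans (h x hx)

theorem QS.mono {η η' : Ordinal.{0}} {p q : Qc} (h : QS η' p q) (k : η ≤ η') : QS η p q :=
  ⟨h.1, fun n hn => ⟨(h.2 n hn).1, (h.2 n hn).2.imp_right fun e => ⟨e.1.mono k, e.2.mono k⟩⟩⟩

theorem QS.symm {η : Ordinal.{0}} {p q : Qc} (h : QS η p q) : QS η q p :=
  ⟨h.1.symm, fun n hn => ⟨(h.2 n (h.1 ▸ hn)).1.symm,
    (h.2 n (h.1 ▸ hn)).2.imp Eq.symm And.symm⟩⟩

theorem QS.refl (η : Ordinal.{0}) (p : Qc) : QS η p p := ⟨rfl, fun _ _ => ⟨rfl, Or.inl rfl⟩⟩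

/-- the retagging lemma -/
theorem retag {η : Ordinal.{0}} {p q p' : Qc} (hq : QV q) (hp' : QV p') (hs : QS (η + 1) p q)
    (hle : QL p' p) : ∃ q', QV q' ∧ QL q' q ∧ QS η p' q' ∧
      ∀ n, q.1 ≤ n → n < q'.1 → (q'.2.1 n).1.2 = false → q'.2.2 n ≠ none := by
  classical
  obtain ⟨M, hM⟩ : ∃ M, ∀ n < p'.1, ∀ x, p'.2.2 n = some x → x.2 < M := by
    refine ⟨(Finset.range p'.1).sup (fun n => ((p'.2.2 n).map Prod.snd).getD 0) + 1,
      fun n hn x hx => Nat.lt_succ_of_le ?_⟩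
    refine le_trans ?_ (Finset.le_sup (f := fun n => ((p'.2.2 n).map Prod.snd).getD 0)
      (Finset.mem_range.2 hn))
    simp [hx]
  let t' : ℕ → Tg := fun n => if n < p.1 then q.2.2 n else if (p'.2.1 n).1.2 = true then none
    else if thi (η + 1) (p'.2.2 n) then some (η, M + (p'.1 - n)) else p'.2.2 n
  have t0 : ∀ n < p.1, t' n = q.2.2 n := fun n hn => if_pos hn
  have t1 : ∀ n, ¬ n < p.1 → (p'.2.1 n).1.2 = true → t' n = none := fun n hn h =>
    (if_neg hn).trans (if_pos h)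
  have t2 : ∀ n, ¬ n < p.1 → ¬ (p'.2.1 n).1.2 = true → thi (η + 1) (p'.2.2 n) →
      t' n = some (η, M + (p'.1 - n)) := fun n hn h k =>
    (if_neg hn).trans ((if_neg h).trans (if_pos k))
  have t3 : ∀ n, ¬ n < p.1 → ¬ (p'.2.1 n).1.2 = true → ¬ thi (η + 1) (p'.2.2 n) →
      t' n = p'.2.2 n := fun n hn h k => (if_neg hn).trans ((if_neg h).trans (if_neg k))
  have v0 : ∀ n < p.1, p'.2.1 n = q.2.1 n := fun n hn => (hle.2 n hn).1.trans (hs.2 n hn).1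
  have lt1 : η < η + 1 := Order.lt_add_one_iff.2 le_rfl
  refine ⟨(p'.1, p'.2.1, t'), fun n hn => ?_, ⟨hs.1 ▸ hle.1, fun n hn => ?_⟩, ⟨rfl, fun n hn => ⟨rfl, ?_⟩⟩,
    fun n h1 _ h2 => ?_⟩
  · by_cases h : n < p.1
    · exact (hq n (hs.1 ▸ h)).congr fun m hm =>
        ⟨congrArg _ (v0 m (hm.trans_lt h)), t0 m (hm.trans_lt h)⟩
    have V := hp' n hn
    refine ⟨fun hb y hy => ?_, fun k => ⟨t1 n h k, (V.2 k).2⟩⟩
    dsimp only at hb hy ⊢
    generalize hb' : (p'.2.1 n).1.1 = b at hb hy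
    have E : tlt (p'.2.2 n) (p'.2.2 b) := by
      have := V.1
      rw [hb'] at this
      exact this hb
    by_cases k : (p'.2.1 n).1.2 = true
    · exfalso
      have k1 : (p'.2.1 b).1.2 = true := by
        have := (V.2 k).2.1
        rw [hb'] at this
        exact this hb
      by_cases h1 : b < p.1
      · rw [t0 b h1, ((hq b (hs.1 ▸ h1)).2 (v0 b h1 ▸ k1)).1] at hy
        cases hy
      · rw [t1 b h1 k1] at hy
        cases hy
    by_cases a : thi (η + 1) (p'.2.2 n)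
    · refine ⟨_, t2 n h k a, ?_⟩
      have a1 : thi (η + 1) (p'.2.2 b) := fun z hz => by
        obtain ⟨x, h1, h2⟩ := E z hz
        exact (a x h1).trans (h2.elim le_of_lt fun e => e.1.le)
      by_cases h1 : b < p.1
      · rw [t0 b h1] at hy
        left
        rcases (hs.2 b h1).2 with e | e
        · exact lt1.trans_le (a1 y ((hle.2 b h1).2.trans (e.trans hy)))
        · exact lt1.trans_le (e.2 y hy)
      · by_cases k1 : (p'.2.1 b).1.2 = true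
        · rw [t1 b h1 k1] at hy
          cases hy
        · rw [t2 b h1 k1 a1] at hy
          cases hy
          exact Or.inr ⟨rfl, by dsimp only at hn ⊢; omega⟩
    · rw [t3 n h k a]
      obtain ⟨x, hx, hx'⟩ : ∃ x, p'.2.2 n = some x ∧ x.1 < η + 1 := by
        by_contra hc
        exact a fun x hx => not_lt.1 fun h' => hc ⟨x, hx, h'⟩
      by_cases h1 : b < p.1
      · rw [t0 b h1] at hy
        rcases (hs.2 b h1).2 with e | e
        · exact E y ((hle.2 b h1).2.trans (e.trans hy))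
        · exact ⟨x, hx, Or.inl (hx'.trans_le (e.2 y hy))⟩
      · by_cases k1 : (p'.2.1 b).1.2 = true
        · rw [t1 b h1 k1] at hy
          cases hy
        by_cases a1 : thi (η + 1) (p'.2.2 b)
        · rw [t2 b h1 k1 a1] at hy
          cases hy
          refine ⟨x, hx, (Order.lt_add_one_iff.1 hx').lt_or_eq.imp_right fun e => ⟨e, ?_⟩⟩
          have := hM n hn x hx
          dsimp only
          omega
        · rw [t3 b h1 k1 a1] at hy
          exact E y hy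
  · exact ⟨v0 n (hs.1 ▸ hn), t0 n (hs.1 ▸ hn)⟩
  · dsimp only
    by_cases h : n < p.1
    · rw [t0 n h, (hle.2 n h).2]
      exact (hs.2 n h).2.imp_right fun e => ⟨e.1.mono lt1.le, e.2.mono lt1.le⟩
    by_cases k : (p'.2.1 n).1.2 = true
    · exact Or.inl (((hp' n hn).2 k).1.trans (t1 n h k).symm)
    by_cases a : thi (η + 1) (p'.2.2 n)
    · refine Or.inr ⟨a.mono lt1.le, fun x hx => ?_⟩
      rw [t2 n h k a] at hx
      cases hx
      exact le_rfl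
    · exact Or.inl (t3 n h k a).symm
  · have h : ¬ n < p.1 := by rw [hs.1]; omega
    have k : ¬ (p'.2.1 n).1.2 = true := by
      dsimp only at h2
      simp [h2]
    dsimp only
    by_cases a : thi (η + 1) (p'.2.2 n)
    · rw [t2 n h k a]; simp
    · rw [t3 n h k a]
      intro e
      exact a fun x hx => by rw [e] at hx; cases hx

/-- valid, and marks occur only if `o` holds -/
def QW (o : Prop) (p : Qc) : Prop := QV p ∧ ∀ n < p.1, (p.2.1 n).1.2 = true → o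

theorem qw_true : QW True = QV := funext fun _ => propext ⟨fun h => h.1, fun h => ⟨h, fun _ _ _ => trivial⟩⟩

theorem retagW {o : Prop} {η : Ordinal.{0}} {p q p' : Qc} (hq : QW o q) (hp' : QW o p')
    (hs : QS (η + 1) p q) (hle : QL p' p) : ∃ q', QW o q' ∧ QL q' q ∧ QS η p' q' ∧
      ∀ n, q.1 ≤ n → n < q'.1 → (q'.2.1 n).1.2 = false → q'.2.2 n ≠ none := by
  obtain ⟨q', h1, h2, h3, h4⟩ := retag hq.1 hp'.1 hs hle
  exact ⟨q', ⟨h1, fun n hn k => hp'.2 n (h3.1 ▸ hn) ((h3.2 n (h3.1 ▸ hn)).1 ▸ k)⟩, h2, h3, h4⟩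

/-- closed under extension and under changes of tags of level at least `η` -/
def Nice (V : Qc → Prop) (η : Ordinal.{0}) (F : Set Qc) : Prop :=
  (∀ p ∈ F, ∀ q, V q → QL q p → q ∈ F) ∧ ∀ p ∈ F, ∀ q, V p → V q → QS η p q → q ∈ F

def Dns (V : Qc → Prop) (F : Set Qc) : Prop := ∀ p, V p → ∃ q, V q ∧ QL q p ∧ q ∈ F

theorem Nice.mono {V : Qc → Prop} {η η' : Ordinal.{0}} {F : Set Qc} (h : Nice V η F) (k : η ≤ η') :
    Nice V η' F := ⟨h.1, fun p hp q a b c => h.2 p hp q a b (c.mono k)⟩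

theorem Nice.union {V : Qc → Prop} {η : Ordinal.{0}} {F G : Set Qc} (h : Nice V η F)
    (k : Nice V η G) : Nice V η (F ∪ G) :=
  ⟨fun p hp q a b => hp.imp (fun e => h.1 p e q a b) fun e => k.1 p e q a b,
    fun p hp q a b c => hp.imp (fun e => h.2 p e q a b c) fun e => k.2 p e q a b c⟩

/-- the trivial extension to length `N` -/
def pad (p : Qc) (N : ℕ) : Qc := (N, fun n => if n < p.1 then p.2.1 n else ((n, false), 0, false),
  fun n => if n < p.1 then p.2.2 n else some (0, 0))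

theorem pad_le {p : Qc} {N : ℕ} (h : p.1 ≤ N) : QL (pad p N) p :=
  ⟨h, fun _ hn => ⟨if_pos hn, if_pos hn⟩⟩

theorem pad_new {p : Qc} {N n : ℕ} (h : ¬ n < p.1) :
    (pad p N).2.1 n = ((n, false), 0, false) ∧ (pad p N).2.2 n = some (0, 0) := ⟨if_neg h, if_neg h⟩

theorem pad_val {p : Qc} (h : QV p) (N : ℕ) : QV (pad p N) := fun n _ => by
  by_cases k : n < p.1
  · exact (h n k).congr fun m hm => ⟨congrArg _ (if_pos (hm.trans_lt k)), if_pos (hm.trans_lt k)⟩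
  · unfold Vok
    rw [(pad_new k).1]
    exact ⟨fun e => absurd e (lt_irrefl _), fun e => absurd e Bool.false_ne_true⟩

theorem pad_w {o : Prop} {p : Qc} (h : QW o p) (N : ℕ) : QW o (pad p N) :=
  ⟨pad_val h.1 N, fun n _ k => by
    by_cases c : n < p.1
    · rw [show (pad p N).2.1 n = p.2.1 n from if_pos c] at k
      exact h.2 n c k
    · rw [(pad_new c).1] at k
      exact absurd k Bool.false_ne_true⟩

/-- `A` is decided by forcing -/
def Dec (o : Prop) (A : Set (ℕ → Vd)) : Prop :=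
  ∃ (η : Ordinal.{0}) (D : ℕ → Set Qc) (F G : Set Qc),
    (∀ i, Nice (QW o) η (D i) ∧ Dns (QW o) (D i)) ∧ Nice (QW o) η F ∧ Nice (QW o) η G ∧
      Dns (QW o) (F ∪ G) ∧ ∀ v t, (∀ N, QW o (N, v, t)) → (∀ i, ∃ N, (N, v, t) ∈ D i) →
        ∀ N, ((N, v, t) ∈ F → v ∈ A) ∧ ((N, v, t) ∈ G → v ∉ A)

variable {o : Prop}

theorem dec_base (i : ℕ) (B : Set Vd) : Dec o {v | v i ∈ B} := by
  have key : ∀ B : Set Vd, Nice (QW o) 0 {p : Qc | i < p.1 ∧ p.2.1 i ∈ B} := fun B =>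
    ⟨fun p hp q _ h => ⟨hp.1.trans_le h.1, (h.2 i hp.1).1 ▸ hp.2⟩,
      fun p hp q _ _ h => ⟨h.1 ▸ hp.1, (h.2 i hp.1).1 ▸ hp.2⟩⟩
  refine ⟨0, fun _ => Set.univ, _, _, fun _ => ⟨⟨fun _ _ _ _ _ => trivial, fun _ _ _ _ _ _ => trivial⟩,
    fun p hp => ⟨p, hp, QL.refl p, trivial⟩⟩, key B, key Bᶜ, fun p hp => ?_,
    fun v t _ _ N => ⟨fun h => h.2, fun h => h.2⟩⟩
  refine ⟨pad p (p.1 + i + 1), pad_w hp _, pad_le (by omega), ?_⟩
  have : i < (pad p (p.1 + i + 1)).1 := by show i < p.1 + i + 1; omega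
  by_cases h : (pad p (p.1 + i + 1)).2.1 i ∈ B
  exacts [Or.inl ⟨this, h⟩, Or.inr ⟨this, h⟩]

theorem Dec.compl {A : Set (ℕ → Vd)} (h : Dec o A) : Dec o Aᶜ := by
  obtain ⟨η, D, F, G, h1, h2, h3, h4, h5⟩ := h
  exact ⟨η, D, G, F, h1, h3, h2, Set.union_comm F G ▸ h4, fun v t a b N =>
    ⟨(h5 v t a b N).2, fun k e => e ((h5 v t a b N).1 k)⟩⟩

theorem Dec.iUnion {A : ℕ → Set (ℕ → Vd)} (h : ∀ k, Dec o (A k)) : Dec o (⋃ k, A k) := by
  choose η D F G h1 h2 h3 h4 h5 using h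
  have hη : ∀ k, η k ≤ ⨆ k, η k := Ordinal.le_iSup η
  generalize (⨆ k, η k) = ξ at hη
  have lt1 : ξ ≤ ξ + 1 := le_self_add
  have nF : Nice (QW o) ξ (⋃ k, F k) := by
    constructor
    · intro p hp q a b
      obtain ⟨k, hk⟩ := Set.mem_iUnion.1 hp
      exact Set.mem_iUnion.2 ⟨k, (h2 k).1 p hk q a b⟩
    · intro p hp q a b c
      obtain ⟨k, hk⟩ := Set.mem_iUnion.1 hp
      exact Set.mem_iUnion.2 ⟨k, ((h2 k).mono (hη k)).2 p hk q a b c⟩
  let D' : ℕ → ℕ → Set Qc := fun k j => Nat.casesOn j (F k ∪ G k) (D k)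
  have hD' : ∀ k j, Nice (QW o) (η k) (D' k j) ∧ Dns (QW o) (D' k j) := fun k j => by
    cases j
    exacts [⟨(h2 k).union (h3 k), h4 k⟩, h1 k _]
  refine ⟨ξ + 1, fun i => D' i.unpair.1 i.unpair.2, ⋃ k, F k,
    {p | ∀ q, QW o q → QL q p → q ∉ ⋃ k, F k},
    fun i => ⟨(hD' _ _).1.mono ((hη _).trans lt1), (hD' _ _).2⟩, nF.mono lt1,
    ⟨fun p hp q _ b r c d => hp r c (d.trans b), fun p hp q a _ c r d e hr => ?_⟩,
    fun p hp => ?_, fun v t a b N => ⟨fun hN => ?_, fun hN hv => ?_⟩⟩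
  · obtain ⟨p', k1, k2, k3, -⟩ := retagW a d c.symm e
    exact hp p' k1 k2 (nF.2 r hr p' d k1 k3)
  · by_cases k : ∃ q, QW o q ∧ QL q p ∧ q ∈ ⋃ k, F k
    · obtain ⟨q, a, b, c⟩ := k
      exact ⟨q, a, b, Or.inl c⟩
    · exact ⟨p, hp, QL.refl p, Or.inr fun q a b c => k ⟨q, a, b, c⟩⟩
  · obtain ⟨k, hk⟩ := Set.mem_iUnion.1 hN
    refine Set.mem_iUnion.2 ⟨k, (h5 k v t a (fun i => ?_) N).1 hk⟩
    simpa [D'] using b (Nat.pair k (i + 1))
  · obtain ⟨k, hk⟩ := Set.mem_iUnion.1 hv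
    have g : ∀ i, ∃ N, (N, v, t) ∈ D k i := fun i => by simpa [D'] using b (Nat.pair k (i + 1))
    obtain ⟨M, hM⟩ : ∃ M, (M, v, t) ∈ F k ∪ G k := by simpa [D'] using b (Nat.pair k 0)
    rcases hM with hM | hM
    · exact hN (max M N, v, t) (a _) ⟨le_max_right _ _, fun _ _ => ⟨rfl, rfl⟩⟩
        (Set.mem_iUnion.2 ⟨k, (h2 k).1 _ hM _ (a _) ⟨le_max_left _ _, fun _ _ => ⟨rfl, rfl⟩⟩⟩)
    · exact (h5 k v t a g M).2 hM hk

theorem dec_of_measurable (o : Prop) {A : Set (ℕ → Vd)} (hA : MeasurableSet A) : Dec o A := by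
  rw [MeasurableSpace.pi_eq_generateFrom_projections] at hA
  induction A, hA using MeasurableSpace.generateFrom_induction with
  | hC E hE _ =>
    obtain ⟨i, B, -, rfl⟩ := hE
    exact dec_base i B
  | empty => exact dec_base 0 ∅
  | compl E _ ih => exact ih.compl
  | iUnion E _ ih => exact Dec.iUnion ih

/-- the limit of a growing sequence of finite parts -/
theorem lim_agree {γ : Type _} {N : ℕ → ℕ} {d : ℕ → ℕ → γ} (h1 : ∀ k, N k < N (k + 1))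
    (h2 : ∀ k, ∀ n < N k, d (k + 1) n = d k n) : ∀ k, ∀ n < N k, d (n + 1) n = d k n := by
  have hm : StrictMono N := strictMono_nat_of_lt_succ h1
  have key : ∀ k j, k ≤ j → ∀ n < N k, d j n = d k n := fun k j hj n hn => by
    induction j, hj using Nat.le_induction with
    | base => rfl
    | succ j hj ih => exact (h2 j n (hn.trans_le (hm.monotone hj))).trans ih
  intro k n hn
  rcases le_total k (n + 1) with h | h
  · exact key _ _ h n hn
  · exact (key _ _ h n (hm.id_le (n + 1))).symm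

theorem exists_generic {ι : Type} [Countable ι] [Nonempty ι] (E : ι → Set Qc)
    (h1 : ∀ j, Dns QV (E j)) (h2 : ∀ j, ∀ p ∈ E j, ∀ q, QV q → QL q p → q ∈ E j) :
    ∃ v t, (∀ n, Vok v t n) ∧ ∀ j, ∃ N, (N, v, t) ∈ E j := by
  obtain ⟨e, he⟩ := exists_surjective_nat ι
  have H : ∀ (k : ℕ) (p : {p // QV p}), ∃ q : {p // QV p},
      QL q.1 p.1 ∧ p.1.1 < q.1.1 ∧ q.1 ∈ E (e k) := fun k p => by
    obtain ⟨q, a, b, c⟩ := h1 (e k) _ (pad_val p.2 (p.1.1 + 1))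
    exact ⟨⟨q, a⟩, b.trans (pad_le (Nat.le_succ _)), b.1, c⟩
  choose f f1 f2 f3 using H
  let s : ℕ → {p // QV p} := fun k => Nat.rec
    ⟨(0, fun _ => default, fun _ => none), fun n hn => absurd hn (Nat.not_lt_zero n)⟩
    (fun k p => f k p) k
  have l1 := lim_agree (N := fun k => (s k).1.1) (d := fun k => (s k).1.2.1) (fun k => f2 k _)
    fun k n hn => ((f1 k _).2 n hn).1
  have l2 := lim_agree (N := fun k => (s k).1.1) (d := fun k => (s k).1.2.2) (fun k => f2 k _)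
    fun k n hn => ((f1 k _).2 n hn).2
  have hm : StrictMono fun k => (s k).1.1 := strictMono_nat_of_lt_succ fun k => f2 k _
  have hk : ∀ n, n < (s (n + 1)).1.1 := fun n => hm.id_le (n + 1)
  have hv : ∀ n, Vok (fun n => (s (n + 1)).1.2.1 n) (fun n => (s (n + 1)).1.2.2 n) n := fun n =>
    ((s (n + 1)).2 n (hk n)).congr fun m hm' =>
      ⟨congrArg _ (l1 (n + 1) m (hm'.trans_lt (hk n))), l2 (n + 1) m (hm'.trans_lt (hk n))⟩
  refine ⟨_, _, hv, fun j => ?_⟩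
  obtain ⟨k, rfl⟩ := he j
  exact ⟨(s (k + 1)).1.1, h2 _ _ (f3 k (s k)) _ (fun n _ => hv n)
    ⟨le_rfl, fun n hn => ⟨l1 (k + 1) n hn, l2 (k + 1) n hn⟩⟩⟩

end Pool.Agent.MinDeg
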